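import Pool.Agent.N919.Cusp.Geom

/-! The free path of chords through a cusp. -/

set_option autoImplicit false
open Complex Set Topology Metric

namespace Pool.Agent.N919.Cusp

open Pool.Agent.H763R2 Pool.Agent.H763R2.An Pool.Agent.W675.Peg Pool.Agent.TH569.Peg
open Pool.Agent.H763R2.Dm (NoSq floor_const)
open Pool.Agent.Y535.PEG
open Pool.Agent.Y450.Stab (Lip ESq Prim)

theorem lip_negneg {L : ℝ} {f : ℝ → ℝ} (h : Lip L f) : Lip L (fun x => -f (-x)) := by
  intro x y
  have := h (-y) (-x)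
  rw [show -y - -x = x - y by ring] at this
  show |-f (-x) - -f (-y)| ≤ L * |x - y|
  rw [show -f (-x) - -f (-y) = f (-y) - f (-x) by ring]
  exact this

/-- the extreme chord -/
theorem real_chord {κ : ℝ} {F G : ℝ → ℝ} (hF : Lip κ F) (hG : Lip κ G) (κ0 : 0 < κ) (κ1 : κ < 1)
    (F0 : ∀ z, z ≤ 0 → F z = 0) (G0 : ∀ z, z ≤ 0 → G z = 0) (hGF : ∀ z, 0 < z → G z < F z)
    {η : ℝ} (hη : 0 < η) : ∃ X X0, 0 < X ∧ X < η ∧ 0 < X0 ∧ X0 < η ∧
      G X + (X0 - X) < G (X - (F X0 - G X)) ∧ F (X0 - (F X0 - G X)) < F X0 + (X0 - X) := by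
  have q : 0 < 1 - κ ^ 2 := by nlinarith
  obtain ⟨K, hK⟩ : ∃ K, K = 2 / (1 - κ ^ 2) := ⟨_, rfl⟩
  have K0 : 0 < K := by rw [hK]; positivity
  have hK2 : K * (1 - κ ^ 2) = 2 := by rw [hK]; field_simp
  have K2 : 0 < K + 2 := by linarith
  obtain ⟨x, d, l, h1, h2, S, h3⟩ := sign_cusp (T := fun x => -G (-x)) (B := fun x => -F (-x))
    (L := κ) (lip_negneg hG) (lip_negneg hF) κ0.le κ1
    (fun x hx => by rw [G0 (-x) (by linarith), neg_zero])
    (fun x hx => by rw [F0 (-x) (by linarith), neg_zero])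
    (fun x hx => by
      have := hGF (-x) (by linarith)
      linarith) (x0 := -(η / (K + 2))) (by
      have : 0 < η / (K + 2) := by positivity
      linarith)
  obtain ⟨X, hX⟩ : ∃ X, X = -x := ⟨_, rfl⟩
  have hx : x = -X := by rw [hX, neg_neg]
  subst hx
  have X0 : 0 < X := by linarith
  have S0 := S.l0
  have S3 := S.h3
  have S2 := S.h2
  simp only [neg_neg] at S3 S2 h3
  rw [show -(-X + l) = X - l by ring] at S3
  rw [show -(-X + d) = X - d by ring] at S2
  rw [show -(-X + d + l) = X - d - l by ring] at h3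
  have Sd := S.d_le (lip_negneg hG)
  have Sl := S.l_le (lip_negneg hG) (lip_negneg hF) κ0.le
  simp only [neg_neg] at Sl
  have hXη : X * (K + 2) ≤ η := by
    have : X ≤ η / (K + 2) := by linarith
    rwa [le_div_iff₀ K2] at this
  have bF : ∀ z, 0 ≤ z → |F z| ≤ κ * z := fun z hz => by
    have := hF z 0
    rwa [F0 0 le_rfl, sub_zero, sub_zero, abs_of_nonneg hz] at this
  have bG : ∀ z, 0 ≤ z → |G z| ≤ κ * z := fun z hz => by
    have := hG z 0
    rwa [G0 0 le_rfl, sub_zero, sub_zero, abs_of_nonneg hz] at this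
  have bFX := abs_le.1 (bF X X0.le)
  have bGX := abs_le.1 (bG X X0.le)
  have κX : κ * X ≤ X := by nlinarith
  have hl : l ≤ K * X := by
    have h4 : (1 - κ ^ 2) * l ≤ (1 - κ ^ 2) * (K * X) := by
      rw [show (1 - κ ^ 2) * (K * X) = K * (1 - κ ^ 2) * X by ring, hK2]
      linarith [bFX.2, bGX.1]
    exact le_of_mul_le_mul_left h4 q
  have κl : κ * l ≤ l := by nlinarith
  obtain ⟨Sd1, Sd2⟩ := abs_le.1 Sd
  have hXd : 0 < X - d := by
    by_contra hcon
    push Not at hcon
    rw [F0 _ hcon] at S2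
    have : l = -G X := by linarith
    have h5 : κ * X ≤ κ * (κ * l) := mul_le_mul_of_nonneg_left (by linarith) κ0.le
    have h6 : 0 < l := by nlinarith
    have h7 : κ * (κ * l) < l := by
      have : κ * l < l := by nlinarith
      nlinarith
    linarith [bGX.1]
  have hφc : Continuous fun s => F (X - s) - s - F (X - s - (F (X - s) - G X)) := by
    have := hF.cont
    fun_prop
  have hφd : 0 < F (X - d) - d - F (X - d - (F (X - d) - G X)) := by
    have e : F (X - d) = G X + l := by linarith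
    rw [e, show X - d - (G X + l - G X) = X - d - l by ring]
    linarith
  obtain ⟨δ, hδ, hφ⟩ := Metric.eventually_nhds_iff.1
    ((hφc.tendsto d).eventually (lt_mem_nhds hφd))
  obtain ⟨s, s1, s2, s3⟩ : ∃ s, d < s ∧ s < d + δ ∧ s < X := by
    have hm : 0 < min δ (X - d) := lt_min hδ hXd
    have := min_le_left δ (X - d)
    have := min_le_right δ (X - d)
    exact ⟨d + min δ (X - d) / 2, by linarith, by linarith, by linarith⟩
  have hφs := hφ (y := s) (by rw [Real.dist_eq, abs_of_pos (by linarith)]; linarith)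
  refine ⟨X, X - s, X0, by nlinarith, by linarith, by nlinarith, ?_, ?_⟩
  · have k1 := hF (X - s) (X - d)
    rw [show X - s - (X - d) = -(s - d) by ring, abs_neg, abs_of_pos (by linarith : 0 < s - d)] at k1
    have k2 := (abs_le.1 (hG (X - (F (X - s) - G X)) (X - l))).1
    have k3 : |X - (F (X - s) - G X) - (X - l)| ≤ κ * (s - d) := by
      have e : X - (F (X - s) - G X) - (X - l) = -(F (X - s) - F (X - d)) := by linarith
      rw [e, abs_neg]; exact k1
    have k4 := mul_le_mul_of_nonneg_left k3 κ0.le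
    have k5 : κ * (κ * (s - d)) < s - d := by
      have : κ * (s - d) < s - d := by nlinarith
      nlinarith
    linarith
  · linarith

variable {c : ℝ → ℂ} {p r κ H : ℝ} {w : ℂ} {F G : ℝ → ℝ}

theorem Gm.main (M : Gm c p r κ H w F G) (L : Loop c) (J : Inj c)
    (hGF : ∀ z, 0 < z → G z < F z) : ∃ a b, p - r ≤ a ∧ a < p ∧ p < b ∧ b ≤ p + r ∧ Fr c a b := by
  obtain ⟨ε, hε, hoff⟩ := M.off L J hGF
  obtain ⟨η, hη, n1, n2⟩ : ∃ η > 0, 3 * η ≤ ε ∧ η ≤ H :=
    ⟨min (ε / 3) H, lt_min (by positivity) M.H0, by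
      have := min_le_left (ε / 3) H
      linarith, min_le_right _ _⟩
  obtain ⟨X, Y, X0, X1, Y0, Y1, hD, hE⟩ := real_chord M.hF M.hG M.κ0 M.κ1 M.F0 M.G0 hGF hη
  obtain ⟨a, ha, ea⟩ := M.exG L X0.le (X1.le.trans n2)
  obtain ⟨b, hb, eb⟩ := M.exF L Y0.le (Y1.le.trans n2)
  have va := M.eG a ha (by rw [ea]; exact X1.le.trans n2)
  have vb := M.eF b hb (by rw [eb]; exact Y1.le.trans n2)
  rw [ea] at va
  rw [eb] at vb
  have κ0 := M.κ0
  have κ1 := M.κ1
  have r0 := M.r0
  have mp : p ∈ Icc p (p + r) := ⟨le_rfl, by linarith⟩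
  have mp' : p ∈ Icc (p - r) p := ⟨by linarith, le_rfl⟩
  have hap : a < p := by
    rcases eq_or_lt_of_le ha.2 with h | h
    · rw [h, cu_self] at ea
      linarith
    · exact h
  have hpb : p < b := by
    rcases eq_or_lt_of_le hb.1 with h | h
    · rw [← h, cu_self] at eb
      linarith
    · exact h
  have kk : ∀ z, 0 ≤ z → κ * (κ * z) ≤ z := fun z hz => by
    have h1 : κ * z ≤ z := by nlinarith
    have h2 : κ * (κ * z) ≤ κ * z := mul_le_mul_of_nonneg_left h1 κ0.le
    linarith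
  have kk' : ∀ z, 0 < z → κ * (κ * z) < z := fun z hz => by
    have h1 : κ * z < z := by nlinarith
    have h2 : κ * (κ * z) < κ * z := mul_lt_mul_of_pos_left h1 κ0
    linarith
  have bF : ∀ z, 0 ≤ z → |F z| ≤ z := fun z hz => by
    have := M.hF z 0
    rw [M.F0 0 le_rfl, sub_zero, sub_zero, abs_of_nonneg hz] at this
    have h1 : κ * z ≤ z := by nlinarith
    linarith
  have bG : ∀ z, 0 ≤ z → |G z| ≤ z := fun z hz => by
    have := M.hG z 0
    rw [M.G0 0 le_rfl, sub_zero, sub_zero, abs_of_nonneg hz] at this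
    have h1 : κ * z ≤ z := by nlinarith
    linarith
  have bX := abs_le.1 (bG X X0.le)
  have bY := abs_le.1 (bF Y Y0.le)
  -- points of the branches
  have pG : ∀ t ∈ Icc a p, 0 ≤ cu c p w (c t) ∧ cu c p w (c t) ≤ X ∧
      cv c p w (c t) = G (cu c p w (c t)) ∧ (a < t → cu c p w (c t) < X) := by
    intro t ht
    have ht' : t ∈ Icc (p - r) p := ⟨ha.1.trans ht.1, ht.2⟩
    have h1 : cu c p w (c p) ≤ cu c p w (c t) := M.mG.antitoneOn ht' mp' ht.2
    have h2 : cu c p w (c t) ≤ cu c p w (c a) := M.mG.antitoneOn ha ht' ht.1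
    rw [cu_self] at h1
    rw [ea] at h2
    refine ⟨h1, h2, M.eG t ht' (by linarith), fun hlt => ?_⟩
    have h3 : cu c p w (c t) < cu c p w (c a) := M.mG ha ht' hlt
    rwa [ea] at h3
  have pF : ∀ t ∈ Icc p b, 0 ≤ cu c p w (c t) ∧ cu c p w (c t) ≤ Y ∧
      cv c p w (c t) = F (cu c p w (c t)) ∧ (t < b → cu c p w (c t) < Y) := by
    intro t ht
    have ht' : t ∈ Icc p (p + r) := ⟨ht.1, ht.2.trans hb.2⟩
    have h1 : cu c p w (c p) ≤ cu c p w (c t) := M.mF.monotoneOn mp ht' ht.1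
    have h2 : cu c p w (c t) ≤ cu c p w (c b) := M.mF.monotoneOn ht' hb ht.2
    rw [cu_self] at h1
    rw [eb] at h2
    refine ⟨h1, h2, M.eF t ht' (by linarith), fun hlt => ?_⟩
    have h3 : cu c p w (c t) < cu c p w (c b) := M.mF ht' hb hlt
    rwa [eb] at h3
  refine ⟨a, b, ha.1, hap, hpb, hb.2, ?_, ?_⟩
  · intro y hy
    have key : ∀ z v', 0 ≤ z → z < η → |v'| ≤ z → G X + (z - X) < G (X - (v' - G X)) →
        cu c p w (c y) = z → cv c p w (c y) = v' → DD c a y ∉ range c := by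
      intro z v' z0 z1 hv hG' e1 e2
      have hv := abs_le.1 hv
      refine hoff _ ?_ ?_ (Or.inl ?_)
      · rw [cu_DD, ea, e2, va, abs_lt]
        constructor <;> linarith [bX.1, bX.2, hv.1, hv.2]
      · rw [cv_DD, ea, e1, va, abs_lt]
        constructor <;> linarith [bX.1, bX.2]
      · rw [cu_DD, cv_DD, ea, e1, e2, va]
        exact hG'
    rcases le_total y p with h | h
    · obtain ⟨h1, h2, h3, h4⟩ := pG y ⟨hy.1.le, h⟩
      have h4 := h4 hy.1
      set z := cu c p w (c y) with hz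
      refine key z (G z) h1 (by linarith) (bG z h1) ?_ hz.symm h3
      have k1 := (abs_le.1 (M.hG (X - (G z - G X)) X)).1
      rw [show X - (G z - G X) - X = G X - G z by ring] at k1
      have k2 := M.hG X z
      rw [abs_of_pos (by linarith : 0 < X - z)] at k2
      have k3 := mul_le_mul_of_nonneg_left k2 κ0.le
      have k4 := kk' (X - z) (by linarith)
      linarith
    · obtain ⟨h1, h2, h3, -⟩ := pF y ⟨h, hy.2⟩
      set z := cu c p w (c y) with hz
      refine key z (F z) h1 (by linarith) (bF z h1) ?_ hz.symm h3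
      have k1 := (abs_le.1 (M.hG (X - (F z - G X)) (X - (F Y - G X)))).1
      rw [show X - (F z - G X) - (X - (F Y - G X)) = F Y - F z by ring] at k1
      have k2 := M.hF Y z
      rw [abs_of_nonneg (by linarith : 0 ≤ Y - z)] at k2
      have k3 := mul_le_mul_of_nonneg_left k2 κ0.le
      have k4 := kk (Y - z) (by linarith)
      linarith
  · intro x hx
    have key : ∀ z v', 0 ≤ z → z < η → |v'| ≤ z → F (Y - (F Y - v')) < F Y + (Y - z) →
        cu c p w (c x) = z → cv c p w (c x) = v' → CC c x b ∉ range c := by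
      intro z v' z0 z1 hv hF' e1 e2
      have hv := abs_le.1 hv
      refine hoff _ ?_ ?_ (Or.inr ?_)
      · rw [cu_CC, eb, e2, vb, abs_lt]
        constructor <;> linarith [bY.1, bY.2, hv.1, hv.2]
      · rw [cv_CC, eb, e1, vb, abs_lt]
        constructor <;> linarith [bY.1, bY.2]
      · rw [cu_CC, cv_CC, eb, e1, e2, vb]
        exact hF'
    rcases le_total x p with h | h
    · obtain ⟨h1, h2, h3, -⟩ := pG x ⟨hx.1, h⟩
      set z := cu c p w (c x) with hz
      refine key z (G z) h1 (by linarith) (bG z h1) ?_ hz.symm h3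
      have k1 := (abs_le.1 (M.hF (Y - (F Y - G z)) (Y - (F Y - G X)))).2
      rw [show Y - (F Y - G z) - (Y - (F Y - G X)) = -(G X - G z) by ring, abs_neg] at k1
      have k2 := M.hG X z
      rw [abs_of_nonneg (by linarith : 0 ≤ X - z)] at k2
      have k3 := mul_le_mul_of_nonneg_left k2 κ0.le
      have k4 := kk (X - z) (by linarith)
      linarith
    · obtain ⟨h1, h2, h3, h4⟩ := pF x ⟨h, hx.2.le⟩
      have h4 := h4 hx.2
      set z := cu c p w (c x) with hz
      refine key z (F z) h1 (by linarith) (bF z h1) ?_ hz.symm h3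
      have k1 := (abs_le.1 (M.hF (Y - (F Y - F z)) Y)).2
      rw [show Y - (F Y - F z) - Y = -(F Y - F z) by ring, abs_neg] at k1
      have k2 := M.hF Y z
      rw [abs_of_pos (by linarith : 0 < Y - z)] at k2
      have k3 := mul_le_mul_of_nonneg_left k2 κ0.le
      have k4 := kk' (Y - z) (by linarith)
      linarith

/-- a free path of chords through a cusp -/
theorem Csp.free (L : Loop c) (J : Inj c) (h : Csp c p) {ρ : ℝ} (hρ : 0 < ρ) :
    ∃ a b, p - ρ < a ∧ a < p ∧ p < b ∧ b < p + ρ ∧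
      (Fr c a b ∨ Fr (fun t => c (-t)) (-b) (-a)) := by
  obtain ⟨r, κ, H, w, F, G, hr, M⟩ := h.gm L J hρ
  rcases M.sgn L J with h | h
  · obtain ⟨a, b, h1, h2, h3, h4, h5⟩ := M.main L J h
    exact ⟨a, b, by linarith, h2, h3, by linarith, Or.inl h5⟩
  · obtain ⟨a, b, h1, h2, h3, h4, h5⟩ := M.rev.main L.rev (J.rev L) h
    exact ⟨-b, -a, by linarith, by linarith, by linarith, by linarith, Or.inr (by
      rw [neg_neg, neg_neg]; exact h5)⟩

/-- the points near a cusp are cone points -/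
theorem Csp.cone (L : Loop c) (J : Inj c) (h : Csp c p) : ∃ ρ > 0, ρ < 1 / 2 ∧
    ∀ t, |t - p| < ρ → t ≠ p → Cone c t := by
  obtain ⟨ρ0, hρ0, w, κ, w0, κ0, κ1, hR, hL⟩ := h
  obtain ⟨ρ, hρ, r1, r2⟩ : ∃ ρ > 0, ρ ≤ ρ0 ∧ ρ < 1 / 2 :=
    ⟨min ρ0 (1 / 4), by positivity, min_le_left _ _, by
      have := min_le_right ρ0 (1 / 4)
      linarith⟩
  have pos : ∀ z : ℂ, z ≠ 0 → ∀ R, |(w * z).im| ≤ κ * R → (w * z).re = R ∨ (w * z).re = -R →
      |(w * z).im| < R := by
    intro z hz R h1 h2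
    have h3 : 0 ≤ R := (mul_nonneg_iff_of_pos_left κ0).1 ((abs_nonneg _).trans h1)
    rcases lt_or_eq_of_le h3 with h4 | h4
    · refine h1.trans_lt ?_
      nlinarith
    · exfalso
      rw [← h4, mul_zero] at h1
      rw [← h4, neg_zero, or_self] at h2
      have : w * z = 0 := Complex.ext (by rw [h2]; simp) (by
        rw [abs_nonpos_iff.1 h1]; simp)
      rcases mul_eq_zero.1 this with h | h
      · exact w0 h
      · exact hz h
  refine ⟨ρ, hρ, r2, fun t ht hne => ?_⟩
  obtain ⟨ht1, ht2⟩ := abs_lt.1 ht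
  rcases lt_or_gt_of_ne hne with h | h
  · refine ⟨min (p - t) (t - (p - ρ)), lt_min (by linarith) (by linarith), -w,
      fun x y hx hy hxy => ?_⟩
    obtain ⟨hx1, hx2⟩ := abs_lt.1 hx
    obtain ⟨hy1, hy2⟩ := abs_lt.1 hy
    have m1 := min_le_left (p - t) (t - (p - ρ))
    have m2 := min_le_right (p - t) (t - (p - ρ))
    have h1 := hL x y (by linarith) hxy (by linarith)
    have h2 := pos (c y - c x) (sub_ne_zero.2 (J x y hxy (by linarith)).symm) _ h1
      (Or.inr (by rw [← neg_re]; congr 1; ring))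
    rw [show -w * (c y - c x) = -(w * (c y - c x)) by ring, neg_im, abs_neg,
      show -(w * (c y - c x)) = w * (c x - c y) by ring]
    exact h2
  · refine ⟨min (t - p) (p + ρ - t), lt_min (by linarith) (by linarith), w,
      fun x y hx hy hxy => ?_⟩
    obtain ⟨hx1, hx2⟩ := abs_lt.1 hx
    obtain ⟨hy1, hy2⟩ := abs_lt.1 hy
    have m1 := min_le_left (t - p) (p + ρ - t)
    have m2 := min_le_right (t - p) (p + ρ - t)
    have h1 := hR x y (by linarith) hxy (by linarith)
    exact pos (c y - c x) (sub_ne_zero.2 (J x y hxy (by linarith)).symm) _ h1 (Or.inl rfl)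

end Pool.Agent.N919.Cusp
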