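import Pool.Agent.N919.Cusp.Glob

/-! One-sided Lipschitz graphs. -/

set_option autoImplicit false
open Complex Set Topology Metric

namespace Pool.Agent.N919.Cusp

open Pool.Agent.H763R2 Pool.Agent.H763R2.An Pool.Agent.W675.Peg Pool.Agent.TH569.Peg
open Pool.Agent.H763R2.Dm (NoSq floor_const)
open Pool.Agent.Y535.PEG

variable {c : ℝ → ℂ}

/-- after the parameter `s` the curve is a graph of a `κ`-Lipschitz function -/
def SdR (κ : ℝ) (c : ℝ → ℂ) (s : ℝ) : Prop := ∃ ρ > 0, ∃ w : ℂ, w ≠ 0 ∧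
  ∀ x y, s ≤ x → x < y → y < s + ρ → |(w * (c y - c x)).im| ≤ κ * (w * (c y - c x)).re

/-- before the parameter `s` the curve is a graph of a `κ`-Lipschitz function -/
def SdL (κ : ℝ) (c : ℝ → ℂ) (s : ℝ) : Prop := ∃ ρ > 0, ∃ w : ℂ, w ≠ 0 ∧
  ∀ x y, s - ρ < x → x < y → y ≤ s → |(w * (c y - c x)).im| ≤ κ * (w * (c y - c x)).re

theorem unit_inv {m : ℂ} (h : ‖m‖ = 1) : m⁻¹ = (starRingEnd ℂ) m := by
  have : m * (starRingEnd ℂ) m = 1 := by
    rw [mul_conj, normSq_eq_norm_sq, h]; simp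
  exact inv_eq_of_mul_eq_one_right this

/-- a common axis of two directions -/
theorem axis {a b : ℂ} (ha : ‖a‖ = 1) (hb : ‖b‖ = 1) : ∃ w m : ℂ, w ≠ 0 ∧ m ≠ 0 ∧
    w = a * m ∧ w = b * (starRingEnd ℂ) m ∧ 0 ≤ m.re := by
  have ha0 : a ≠ 0 := by rintro rfl; simp at ha
  have hb0 : b ≠ 0 := by rintro rfl; simp at hb
  obtain ⟨w, hw⟩ := IsAlgClosed.exists_pow_nat_eq (a * b) (n := 2) (by norm_num)
  have hwn : ‖w‖ = 1 := by
    have h1 : ‖w‖ ^ 2 = 1 := by rw [← norm_pow, hw, norm_mul, ha, hb, one_mul]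
    have h2 := norm_nonneg w
    nlinarith
  have hw0 : w ≠ 0 := by rintro rfl; simp at hwn
  have key : ∀ w : ℂ, w ^ 2 = a * b → ‖w‖ = 1 → w ≠ 0 → 0 ≤ (w * a⁻¹).re →
      ∃ w m : ℂ, w ≠ 0 ∧ m ≠ 0 ∧ w = a * m ∧ w = b * (starRingEnd ℂ) m ∧ 0 ≤ m.re := by
    intro w hw hwn hw0 hre
    have hm : ‖w * a⁻¹‖ = 1 := by rw [norm_mul, norm_inv, ha, hwn]; norm_num
    refine ⟨w, w * a⁻¹, hw0, mul_ne_zero hw0 (inv_ne_zero ha0), by field_simp, ?_, hre⟩
    rw [← unit_inv hm, mul_inv, inv_inv]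
    field_simp
    rw [hw]; ring
  rcases le_total 0 (w * a⁻¹).re with h | h
  · exact key w hw hwn hw0 h
  · exact key (-w) (by rw [neg_sq, hw]) (by rw [norm_neg, hwn]) (neg_ne_zero.2 hw0) (by
      rw [neg_mul, neg_re]; linarith)

theorem sd_unit {κ : ℝ} {w z : ℂ} (hw : w ≠ 0) (h : |(w * z).im| ≤ κ * (w * z).re) :
    |((((‖w‖⁻¹ : ℝ) : ℂ) * w) * z).im| ≤ κ * ((((‖w‖⁻¹ : ℝ) : ℂ) * w) * z).re := by
  have hn : 0 < ‖w‖⁻¹ := inv_pos.2 (norm_pos_iff.2 hw)
  rw [mul_assoc, re_ofReal_mul, im_ofReal_mul, abs_mul, abs_of_pos hn]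
  nlinarith [mul_le_mul_of_nonneg_left h hn.le]

theorem unit_norm {w : ℂ} (hw : w ≠ 0) : ‖(((‖w‖⁻¹ : ℝ) : ℂ) * w)‖ = 1 := by
  rw [norm_mul, norm_real, norm_inv, norm_norm]
  exact inv_mul_cancel₀ (norm_ne_zero_iff.2 hw)

/-- a point with one-sided Lipschitz graphs is a point of local monotonicity or a cusp -/
theorem mon_or_csp (J : Inj c) {κ s : ℝ} (κ0 : 0 < κ) (hκ : κ ^ 2 + 2 * κ < 1)
    (hR : SdR κ c s) (hL : SdL κ c s) : Mon c s ∨ Csp c s := by
  obtain ⟨ρ1, hρ1, w1, w10, H1⟩ := hR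
  obtain ⟨ρ2, hρ2, w2, w20, H2⟩ := hL
  obtain ⟨ρ, hρ, r1, r2, r3⟩ : ∃ ρ > 0, ρ ≤ ρ1 ∧ ρ ≤ ρ2 ∧ ρ < 1 / 2 :=
    ⟨min (min ρ1 ρ2) (1 / 4), by positivity, (min_le_left _ _).trans (min_le_left _ _),
      (min_le_left _ _).trans (min_le_right _ _), by
      have := min_le_right (min ρ1 ρ2) (1 / 4)
      linarith⟩
  set a := (((‖w1‖⁻¹ : ℝ) : ℂ) * w1) with ha
  set b := -(((‖w2‖⁻¹ : ℝ) : ℂ) * w2) with hb
  have ha1 : ‖a‖ = 1 := unit_norm w10
  have hb1 : ‖b‖ = 1 := by rw [hb, norm_neg]; exact unit_norm w20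
  obtain ⟨w, m, w0, m0, e1, e2, hm⟩ := axis ha1 hb1
  have κ1 : κ < 1 := by nlinarith [sq_nonneg κ]
  -- data for the chords
  have dR : ∀ x y, s ≤ x → x < y → y < s + ρ → 0 < (a * (c y - c x)).re ∧
      |(a * (c y - c x)).im| ≤ κ * (a * (c y - c x)).re := by
    intro x y h1 h2 h3
    have h4 := sd_unit w10 (H1 x y h1 h2 (by linarith))
    rw [← ha] at h4
    refine ⟨?_, h4⟩
    have h5 : 0 ≤ (a * (c y - c x)).re :=
      (mul_nonneg_iff_of_pos_left κ0).1 ((abs_nonneg _).trans h4)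
    refine lt_of_le_of_ne h5 fun h6 => ?_
    rw [← h6, mul_zero] at h4
    have h7 : a * (c y - c x) = 0 := Complex.ext (by rw [← h6]; simp) (by
      rw [abs_nonpos_iff.1 h4]; simp)
    rcases mul_eq_zero.1 h7 with h | h
    · rw [h] at ha1; simp at ha1
    · exact J x y h2 (by linarith) (sub_eq_zero.1 h).symm
  have dL : ∀ x y, s - ρ < x → x < y → y ≤ s → 0 < (b * (c x - c y)).re ∧
      |(b * (c x - c y)).im| ≤ κ * (b * (c x - c y)).re := by
    intro x y h1 h2 h3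
    have h4 := sd_unit w20 (H2 x y (by linarith) h2 h3)
    have eb : b * (c x - c y) = (((‖w2‖⁻¹ : ℝ) : ℂ) * w2) * (c y - c x) := by rw [hb]; ring
    rw [← eb] at h4
    refine ⟨?_, h4⟩
    have h5 : 0 ≤ (b * (c x - c y)).re :=
      (mul_nonneg_iff_of_pos_left κ0).1 ((abs_nonneg _).trans h4)
    refine lt_of_le_of_ne h5 fun h6 => ?_
    rw [← h6, mul_zero] at h4
    have h7 : b * (c x - c y) = 0 := Complex.ext (by rw [← h6]; simp) (by
      rw [abs_nonpos_iff.1 h4]; simp)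
    rcases mul_eq_zero.1 h7 with h | h
    · rw [h] at hb1; simp at hb1
    · exact J x y h2 (by linarith) (sub_eq_zero.1 h)
  -- multiplication with m
  have mul1 : ∀ z : ℂ, 0 < z.re → |z.im| ≤ κ * z.re → ∀ m : ℂ, 0 ≤ m.re → |m.im| ≤ κ * m.re →
      |(z * m).im| ≤ 2 * κ / (1 - κ ^ 2) * (z * m).re := by
    intro z hz1 hz2 m hm1 hm2
    have q : 0 < 1 - κ ^ 2 := by nlinarith
    have g1 : |(z * m).im| ≤ 2 * κ * (z.re * m.re) := by
      rw [mul_im]
      refine (abs_add_le _ _).trans ?_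
      rw [abs_mul, abs_mul, abs_of_pos hz1, abs_of_nonneg hm1]
      nlinarith [mul_le_mul_of_nonneg_left hm2 hz1.le, mul_le_mul_of_nonneg_right hz2 hm1]
    have g2 : (1 - κ ^ 2) * (z.re * m.re) ≤ (z * m).re := by
      rw [mul_re]
      have h3 : |z.im * m.im| ≤ κ * z.re * (κ * m.re) := by
        rw [abs_mul]
        exact mul_le_mul hz2 hm2 (abs_nonneg _) (mul_nonneg κ0.le hz1.le)
      have := le_abs_self (z.im * m.im)
      nlinarith
    rw [div_mul_eq_mul_div, le_div_iff₀ q]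
    nlinarith [mul_le_mul_of_nonneg_left g2 (by positivity : (0:ℝ) ≤ 2 * κ),
      mul_le_mul_of_nonneg_right g1 q.le]
  have mul2 : ∀ z : ℂ, 0 < z.re → |z.im| ≤ κ * z.re → ∀ (m : ℂ) (σ : ℝ), 0 ≤ m.re →
      |σ| = 1 → σ * m.im = |m.im| → κ * m.re < |m.im| → 0 < σ * (z * m).im := by
    intro z hz1 hz2 m σ hm1 hσ hσm hm2
    rw [mul_im]
    have h1 : |σ * (z.im * m.re)| ≤ κ * z.re * m.re := by
      rw [abs_mul, hσ, one_mul, abs_mul, abs_of_nonneg hm1]
      exact mul_le_mul_of_nonneg_right hz2 hm1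
    have h2 := (abs_le.1 h1).1
    have h3 : σ * (z.re * m.im) = z.re * |m.im| := by rw [← hσm]; ring
    have h4 : σ * (z.re * m.im + z.im * m.re) = σ * (z.re * m.im) + σ * (z.im * m.re) := by ring
    rw [h4, h3]
    nlinarith [mul_lt_mul_of_pos_left hm2 hz1]
  by_cases hcase : |m.im| ≤ κ * m.re
  · right
    have q : 0 < 1 - κ ^ 2 := by nlinarith
    refine ⟨ρ, hρ, w, 2 * κ / (1 - κ ^ 2), w0, by positivity, ?_, fun x y h1 h2 h3 => ?_,
      fun x y h1 h2 h3 => ?_⟩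
    · rw [div_lt_one q]; linarith
    · obtain ⟨g1, g2⟩ := dR x y h1 h2 h3
      have := mul1 _ g1 g2 m hm hcase
      rwa [show a * (c y - c x) * m = w * (c y - c x) by rw [e1]; ring] at this
    · obtain ⟨g1, g2⟩ := dL x y h1 h2 h3
      have := mul1 _ g1 g2 ((starRingEnd ℂ) m) (by simpa using hm) (by simpa using hcase)
      rw [show b * (c x - c y) * (starRingEnd ℂ) m = w * (c x - c y) by rw [e2]; ring] at this
      rw [show w * (c y - c x) = -(w * (c x - c y)) by ring, neg_im, abs_neg]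
      exact this
  · left
    push Not at hcase
    obtain ⟨σ, hσ, hσm⟩ : ∃ σ : ℝ, |σ| = 1 ∧ σ * m.im = |m.im| := by
      rcases le_total 0 m.im with h | h
      · exact ⟨1, by simp, by rw [abs_of_nonneg h, one_mul]⟩
      · exact ⟨-1, by simp, by rw [abs_of_nonpos h]; ring⟩
    have pR : ∀ x y, s ≤ x → x < y → y < s + ρ → 0 < σ * (w * (c y - c x)).im := by
      intro x y h1 h2 h3
      obtain ⟨g1, g2⟩ := dR x y h1 h2 h3
      have := mul2 _ g1 g2 m σ hm hσ hσm hcase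
      rwa [show a * (c y - c x) * m = w * (c y - c x) by rw [e1]; ring] at this
    have pL : ∀ x y, s - ρ < x → x < y → y ≤ s → 0 < σ * (w * (c y - c x)).im := by
      intro x y h1 h2 h3
      obtain ⟨g1, g2⟩ := dL x y h1 h2 h3
      have := mul2 _ g1 g2 ((starRingEnd ℂ) m) (-σ) (by simpa using hm) (by rw [abs_neg, hσ])
        (by simp [hσm]) (by simpa using hcase)
      rw [show b * (c x - c y) * (starRingEnd ℂ) m = -(w * (c y - c x)) by rw [e2]; ring,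
        neg_im] at this
      linarith
    refine ⟨ρ, hρ, -(σ : ℂ) * I * w, fun x y hx hy hxy => ?_⟩
    have e3 : (-(σ : ℂ) * I * w * (c y - c x)).re = σ * (w * (c y - c x)).im := by
      rw [show -(σ : ℂ) * I * w * (c y - c x) = ((-σ : ℝ) : ℂ) * (I * (w * (c y - c x))) by
        push_cast; ring, re_ofReal_mul, I_mul_re]
      ring
    rw [e3]
    obtain ⟨hx1, hx2⟩ := abs_lt.1 hx
    obtain ⟨hy1, hy2⟩ := abs_lt.1 hy
    rcases le_total s x with h | h
    · exact pR x y h hxy (by linarith)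
    · rcases le_total y s with h' | h'
      · exact pL x y (by linarith) hxy h'
      · rcases eq_or_lt_of_le h with h1 | h1
        · exact pR x y h1.ge hxy (by linarith)
        · rcases eq_or_lt_of_le h' with h2 | h2
          · exact pL x y (by linarith) hxy h2.ge
          · have g1 := pL x s (by linarith) h1 le_rfl
            have g2 := pR s y le_rfl h2 (by linarith)
            have : w * (c y - c x) = w * (c s - c x) + w * (c y - c s) := by ring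
            rw [this, add_im]
            linarith

/-- a mean value inequality -/
theorem mvt {T : ℝ → ℂ} (hc : Continuous c) (hT : ∀ t, HasDerivWithinAt c (T t) (Ioi t) t)
    {x y ε : ℝ} {v : ℂ} (hxy : x < y) (h : ∀ t ∈ Ico x y, ‖T t - v‖ ≤ ε) :
    ‖c y - c x - v * (y - x : ℝ)‖ ≤ ε * (y - x) := by
  have h1 := norm_image_sub_le_of_norm_deriv_right_le_segment (f := fun t => c t - v * (t : ℝ))
    (f' := fun t => T t - v) (a := x) (b := y) (C := ε) (by fun_prop) (fun t _ => by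
      have h2 := (hT t).Ici_of_Ioi
      have h3 : HasDerivWithinAt (fun t : ℝ => v * (t : ℂ)) v (Ici t) t := by
        have := (Complex.ofRealCLM.hasDerivAt (x := t)).const_mul v
        simp only [ofRealCLM_apply, ofReal_one, mul_one] at this
        exact this.hasDerivWithinAt
      exact h2.sub h3) h y ⟨hxy.le, le_rfl⟩
  have e : c y - c x - v * ((y - x : ℝ) : ℂ) = c y - v * (y : ℂ) - (c x - v * (x : ℂ)) := by
    push_cast; ring
  rw [e]
  exact h1

theorem cone_mvt {κ ε l : ℝ} {v z : ℂ} (hl : 0 < l) (κ0 : 0 < κ) (hε : ε * (1 + κ) ≤ κ * ‖v‖)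
    (h : ‖z - v * (l : ℝ)‖ ≤ ε * l) :
    |((starRingEnd ℂ) v * z).im| ≤ κ * ((starRingEnd ℂ) v * z).re := by
  set e := z - v * (l : ℂ) with he
  have hz : z = v * l + e := by rw [he]; ring
  have h1 : (starRingEnd ℂ) v * z = ((‖v‖ ^ 2 * l : ℝ) : ℂ) + (starRingEnd ℂ) v * e := by
    rw [hz, mul_add, ← mul_assoc, mul_comm ((starRingEnd ℂ) v) v, mul_conj, normSq_eq_norm_sq]
    push_cast; ring
  have h2 : ‖(starRingEnd ℂ) v * e‖ ≤ ‖v‖ * (ε * l) := by
    rw [norm_mul, norm_conj]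
    exact mul_le_mul_of_nonneg_left h (norm_nonneg _)
  have h3 := (abs_re_le_norm ((starRingEnd ℂ) v * e)).trans h2
  have h4 := (abs_im_le_norm ((starRingEnd ℂ) v * e)).trans h2
  rw [h1, add_im, add_re, ofReal_re, ofReal_im, zero_add]
  refine h4.trans ?_
  have h5 := (abs_le.1 h3).1
  have h6 : κ * (‖v‖ ^ 2 * l - ‖v‖ * (ε * l)) ≤ κ * (‖v‖ ^ 2 * l + ((starRingEnd ℂ) v * e).re) :=
    mul_le_mul_of_nonneg_left (by linarith) κ0.le
  refine le_trans ?_ h6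
  have h7 := mul_le_mul_of_nonneg_left hε (mul_nonneg (norm_nonneg v) hl.le)
  nlinarith

/-- curves with a nonvanishing right derivative that has one-sided limits -/
theorem sd_of_deriv (hc : Continuous c) {T : ℝ → ℂ}
    (hT : ∀ t, HasDerivWithinAt c (T t) (Ioi t) t) {κ : ℝ} (κ0 : 0 < κ) (s : ℝ)
    (h0 : T s ≠ 0) (hR : Filter.Tendsto T (𝓝[>] s) (𝓝 (T s)))
    (hL : ∃ v, v ≠ 0 ∧ Filter.Tendsto T (𝓝[<] s) (𝓝 v)) : SdR κ c s ∧ SdL κ c s := by
  have hε : ∀ v : ℂ, v ≠ 0 → ∃ ε > 0, ε * (1 + κ) ≤ κ * ‖v‖ := fun v hv => by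
    have : 0 < ‖v‖ := norm_pos_iff.2 hv
    exact ⟨κ * ‖v‖ / (1 + κ), by positivity, by rw [div_mul_cancel₀]; positivity⟩
  constructor
  · obtain ⟨ε, ε0, hε⟩ := hε _ h0
    have h1 := hR (Metric.closedBall_mem_nhds (T s) ε0)
    rw [Filter.mem_map, mem_nhdsGT_iff_exists_Ioo_subset] at h1
    obtain ⟨u, hu, hsub⟩ := h1
    refine ⟨u - s, sub_pos.2 hu, (starRingEnd ℂ) (T s), by simpa using h0,
      fun x y h1 h2 h3 => ?_⟩
    refine cone_mvt (sub_pos.2 h2) κ0 hε (mvt hc hT h2 fun t ht => ?_)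
    rcases eq_or_lt_of_le (h1.trans ht.1) with h | h
    · rw [← h, sub_self, norm_zero]; exact ε0.le
    · have := hsub (show t ∈ Ioo s u from ⟨h, by linarith [ht.2]⟩)
      simpa [dist_eq_norm] using this
  · obtain ⟨v, hv, hlim⟩ := hL
    obtain ⟨ε, ε0, hε⟩ := hε _ hv
    have h1 := hlim (Metric.closedBall_mem_nhds v ε0)
    rw [Filter.mem_map, mem_nhdsLT_iff_exists_Ioo_subset] at h1
    obtain ⟨u, hu, hsub⟩ := h1
    refine ⟨s - u, sub_pos.2 hu, (starRingEnd ℂ) v, by simpa using hv, fun x y h1 h2 h3 => ?_⟩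
    refine cone_mvt (sub_pos.2 h2) κ0 hε (mvt hc hT h2 fun t ht => ?_)
    have := hsub (show t ∈ Ioo u s from ⟨by linarith [ht.1], by linarith [ht.2]⟩)
    simpa [dist_eq_norm] using this

end Pool.Agent.N919.Cusp
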