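import Pool.Agent.N919.Cusp.Cor

/-! One-sided Lipschitz graphs with different constants. -/

set_option autoImplicit false
open Complex Set Topology Metric

namespace Pool.Agent.N919.Cusp

open Pool.Agent.H763R2 Pool.Agent.H763R2.An Pool.Agent.W675.Peg Pool.Agent.TH569.Peg
open Pool.Agent.H763R2.Dm (NoSq floor_const)
open Pool.Agent.Y535.PEG

variable {c : ℝ → ℂ}

theorem arg_le {z : ℂ} {κ : ℝ} (h0 : 0 < z.re) (h : |z.im| ≤ κ * z.re) :
    |arg z| ≤ Real.arctan κ := by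
  have h1 := abs_lt.1 (abs_arg_lt_pi_div_two_iff.2 (Or.inl h0))
  have h2 := Real.arctan_tan h1.1 h1.2
  rw [tan_arg] at h2
  obtain ⟨h3, h4⟩ := abs_le.1 h
  rw [abs_le, ← h2]
  constructor
  · rw [← Real.arctan_neg]
    refine Real.arctan_mono ?_
    rw [le_div_iff₀ h0]; linarith
  · refine Real.arctan_mono ?_
    rw [div_le_iff₀ h0]; exact h4

theorem rot_eq (z : ℂ) (θ ψ : ℝ) (h : z = (‖z‖ : ℂ) * exp (θ * I)) :
    exp (-(ψ : ℂ) * I) * z = ((‖z‖ * Real.cos (θ - ψ) : ℝ) : ℂ) +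
      ((‖z‖ * Real.sin (θ - ψ) : ℝ) : ℂ) * I := by
  have e : exp (-(ψ : ℂ) * I) * exp (θ * I) = exp (((θ - ψ : ℝ) : ℂ) * I) := by
    rw [← exp_add]; congr 1; push_cast; ring
  have e2 : exp (((θ - ψ : ℝ) : ℂ) * I) = (Real.cos (θ - ψ) : ℂ) + (Real.sin (θ - ψ) : ℂ) * I := by
    rw [exp_mul_I, ← ofReal_cos, ← ofReal_sin]
  calc exp (-(ψ : ℂ) * I) * z = (‖z‖ : ℂ) * (exp (-(ψ : ℂ) * I) * exp (θ * I)) := by
        conv_lhs => rw [h]
        ring
    _ = _ := by rw [e, e2]; push_cast; ring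

theorem rot_cone {z : ℂ} {θ ψ γ : ℝ} (h : z = (‖z‖ : ℂ) * exp (θ * I)) (hγ : |θ - ψ| ≤ γ)
    (h1 : γ < Real.pi / 2) :
    |(exp (-(ψ : ℂ) * I) * z).im| ≤ Real.tan γ * (exp (-(ψ : ℂ) * I) * z).re := by
  rw [rot_eq z θ ψ h]
  have e1 : (((‖z‖ * Real.cos (θ - ψ) : ℝ) : ℂ) +
      ((‖z‖ * Real.sin (θ - ψ) : ℝ) : ℂ) * I).re = ‖z‖ * Real.cos (θ - ψ) := by
    rw [add_re, ofReal_re, re_ofReal_mul, I_re]; ring
  have e2 : (((‖z‖ * Real.cos (θ - ψ) : ℝ) : ℂ) +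
      ((‖z‖ * Real.sin (θ - ψ) : ℝ) : ℂ) * I).im = ‖z‖ * Real.sin (θ - ψ) := by
    rw [add_im, ofReal_im, im_ofReal_mul, I_im]; ring
  rw [e1, e2, abs_mul, abs_of_nonneg (norm_nonneg z)]
  obtain ⟨g1, g2⟩ := abs_le.1 hγ
  have hγ0 : 0 ≤ γ := (abs_nonneg _).trans hγ
  have hc : 0 < Real.cos (θ - ψ) := Real.cos_pos_of_mem_Ioo ⟨by linarith, by linarith⟩
  have hs : |Real.sin (θ - ψ)| ≤ Real.tan γ * Real.cos (θ - ψ) := by
    have ht : |Real.tan (θ - ψ)| ≤ Real.tan γ := by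
      rw [abs_le]
      constructor
      · rw [← Real.tan_neg]
        exact Real.strictMonoOn_tan.monotoneOn ⟨by linarith, by linarith⟩
          ⟨by linarith, by linarith⟩ g1
      · exact Real.strictMonoOn_tan.monotoneOn ⟨by linarith, by linarith⟩
          ⟨by linarith, by linarith⟩ g2
    have e3 : |Real.sin (θ - ψ)| = |Real.tan (θ - ψ)| * Real.cos (θ - ψ) := by
      rw [Real.tan_eq_sin_div_cos, abs_div, abs_of_pos hc]
      field_simp
    rw [e3]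
    exact mul_le_mul_of_nonneg_right ht hc.le
  calc ‖z‖ * |Real.sin (θ - ψ)| ≤ ‖z‖ * (Real.tan γ * Real.cos (θ - ψ)) :=
        mul_le_mul_of_nonneg_left hs (norm_nonneg z)
    _ = _ := by ring

theorem rot_im {z : ℂ} {θ ψ : ℝ} (h : z = (‖z‖ : ℂ) * exp (θ * I)) :
    (exp (-(ψ : ℂ) * I) * z).im = ‖z‖ * Real.sin (θ - ψ) := by
  rw [rot_eq z θ ψ h, add_im, ofReal_im, im_ofReal_mul, I_im]; ring

/-- a point with one-sided Lipschitz graphs is a point of local monotonicity or a cusp -/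
theorem mon_or_csp2 (J : Inj c) {κ1 κ2 s : ℝ} (κ10 : 0 < κ1) (κ20 : 0 < κ2)
    (hκ : κ1 + κ2 + κ1 * κ2 < 1) (hR : SdR κ1 c s) (hL : SdL κ2 c s) : Mon c s ∨ Csp c s := by
  obtain ⟨ρ1, hρ1, w1, w10, H1⟩ := hR
  obtain ⟨ρ2, hρ2, w2, w20, H2⟩ := hL
  obtain ⟨ρ, hρ, r1, r2, r3⟩ : ∃ ρ > 0, ρ ≤ ρ1 ∧ ρ ≤ ρ2 ∧ ρ < 1 / 2 :=
    ⟨min (min ρ1 ρ2) (1 / 4), by positivity, (min_le_left _ _).trans (min_le_left _ _),
      (min_le_left _ _).trans (min_le_right _ _), by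
      have := min_le_right (min ρ1 ρ2) (1 / 4)
      linarith⟩
  set a := (((‖w1‖⁻¹ : ℝ) : ℂ) * w1) with ha
  set b := -(((‖w2‖⁻¹ : ℝ) : ℂ) * w2) with hb
  have ha1 : ‖a‖ = 1 := unit_norm w10
  have hb1 : ‖b‖ = 1 := by rw [hb, norm_neg]; exact unit_norm w20
  have ha0 : a ≠ 0 := by intro h; rw [h] at ha1; simp at ha1
  have hb0 : b ≠ 0 := by intro h; rw [h] at hb1; simp at hb1
  -- data for the chords
  have dR : ∀ x y, s ≤ x → x < y → y < s + ρ → a * (c y - c x) ≠ 0 ∧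
      |arg (a * (c y - c x))| ≤ Real.arctan κ1 := by
    intro x y h1 h2 h3
    have h4 := sd_unit w10 (H1 x y h1 h2 (by linarith))
    rw [← ha] at h4
    have hne : a * (c y - c x) ≠ 0 := mul_ne_zero ha0
      (sub_ne_zero.2 (J x y h2 (by linarith)).symm)
    refine ⟨hne, arg_le ?_ h4⟩
    have h5 : 0 ≤ (a * (c y - c x)).re :=
      (mul_nonneg_iff_of_pos_left κ10).1 ((abs_nonneg _).trans h4)
    refine lt_of_le_of_ne h5 fun h6 => hne ?_
    rw [← h6, mul_zero] at h4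
    exact Complex.ext (by rw [← h6]; simp) (by rw [abs_nonpos_iff.1 h4]; simp)
  have dL : ∀ x y, s - ρ < x → x < y → y ≤ s → b * (c x - c y) ≠ 0 ∧
      |arg (b * (c x - c y))| ≤ Real.arctan κ2 := by
    intro x y h1 h2 h3
    have h4 := sd_unit w20 (H2 x y (by linarith) h2 h3)
    have eb : b * (c x - c y) = (((‖w2‖⁻¹ : ℝ) : ℂ) * w2) * (c y - c x) := by rw [hb]; ring
    rw [← eb] at h4
    have hne : b * (c x - c y) ≠ 0 := mul_ne_zero hb0
      (sub_ne_zero.2 (J x y h2 (by linarith)))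
    refine ⟨hne, arg_le ?_ h4⟩
    have h5 : 0 ≤ (b * (c x - c y)).re :=
      (mul_nonneg_iff_of_pos_left κ20).1 ((abs_nonneg _).trans h4)
    refine lt_of_le_of_ne h5 fun h6 => hne ?_
    rw [← h6, mul_zero] at h4
    exact Complex.ext (by rw [← h6]; simp) (by rw [abs_nonpos_iff.1 h4]; simp)
  -- angles
  obtain ⟨α1, hα1⟩ : ∃ α, α = Real.arctan κ1 := ⟨_, rfl⟩
  obtain ⟨α2, hα2⟩ : ∃ α, α = Real.arctan κ2 := ⟨_, rfl⟩
  have hπ := Real.pi_pos
  have a10 : 0 < α1 := by rw [hα1, ← Real.arctan_zero]; exact Real.arctan_strictMono κ10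
  have a20 : 0 < α2 := by rw [hα2, ← Real.arctan_zero]; exact Real.arctan_strictMono κ20
  have a12 : α1 + α2 < Real.pi / 4 := by
    have h1 : κ1 * κ2 < 1 := by nlinarith
    have h2 := Real.arctan_add h1
    rw [hα1, hα2, h2, ← Real.arctan_one]
    refine Real.arctan_strictMono ?_
    rw [div_lt_one (by linarith)]
    linarith
  rw [← hα1] at dR
  rw [← hα2] at dL
  obtain ⟨β, hβ⟩ : ∃ β, β = arg (a * b⁻¹) := ⟨_, rfl⟩
  have hβe : a = exp (β * I) * b := by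
    have h1 := norm_mul_exp_arg_mul_I (a * b⁻¹)
    rw [norm_mul, norm_inv, ha1, hb1, ← hβ] at h1
    norm_num at h1
    rw [h1]; field_simp
  have hβ1 : -Real.pi < β := by rw [hβ]; exact neg_pi_lt_arg _
  have hβ2 : β ≤ Real.pi := by rw [hβ]; exact arg_le_pi _
  -- polar forms
  have pR : ∀ x y, s ≤ x → x < y → y < s + ρ → a * (c y - c x) ≠ 0 ∧ ∃ θ : ℝ, |θ| ≤ α1 ∧
      a * (c y - c x) = (‖a * (c y - c x)‖ : ℂ) * exp (θ * I) := by
    intro x y h1 h2 h3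
    obtain ⟨g1, g2⟩ := dR x y h1 h2 h3
    exact ⟨g1, _, g2, (norm_mul_exp_arg_mul_I _).symm⟩
  have pL : ∀ x y, s - ρ < x → x < y → y ≤ s → a * (c x - c y) ≠ 0 ∧ ∃ θ : ℝ,
      |θ - β| ≤ α2 ∧ a * (c x - c y) = (‖a * (c x - c y)‖ : ℂ) * exp (θ * I) := by
    intro x y h1 h2 h3
    obtain ⟨g1, g2⟩ := dL x y h1 h2 h3
    refine ⟨mul_ne_zero ha0 (right_ne_zero_of_mul g1), β + arg (b * (c x - c y)), by
      rw [add_sub_cancel_left]; exact g2, ?_⟩
    have h4 := norm_mul_exp_arg_mul_I (b * (c x - c y))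
    have h5 : ‖a * (c x - c y)‖ = ‖b * (c x - c y)‖ := by
      rw [norm_mul a, norm_mul b, ha1, hb1]
    rw [h5]
    conv_lhs => rw [hβe, mul_assoc, ← h4]
    rw [show ((β + arg (b * (c x - c y)) : ℝ) : ℂ) * I = β * I + arg (b * (c x - c y)) * I by
      push_cast; ring, exp_add]
    ring
  by_cases hcase : |β| ≤ α1 + α2
  · right
    obtain ⟨b1, b2⟩ := abs_le.1 hcase
    obtain ⟨hi, hhi⟩ : ∃ hi, hi = max α1 (β + α2) := ⟨_, rfl⟩
    obtain ⟨lo, hlo⟩ : ∃ lo, lo = min (-α1) (β - α2) := ⟨_, rfl⟩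
    have i1 : α1 ≤ hi := hhi ▸ le_max_left _ _
    have i2 : β + α2 ≤ hi := hhi ▸ le_max_right _ _
    have i3 : lo ≤ -α1 := hlo ▸ min_le_left _ _
    have i4 : lo ≤ β - α2 := hlo ▸ min_le_right _ _
    have i5 : hi - lo < Real.pi / 2 := by
      rw [hhi, hlo]
      rcases max_cases α1 (β + α2) with ⟨h, -⟩ | ⟨h, -⟩ <;>
        rcases min_cases (-α1) (β - α2) with ⟨h', -⟩ | ⟨h', -⟩ <;> rw [h, h'] <;> linarith
    have hγ0 : 0 < (hi - lo) / 2 := by linarith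
    have hγ1 : (hi - lo) / 2 < Real.pi / 4 := by linarith
    refine ⟨ρ, hρ, exp (-(((lo + hi) / 2 : ℝ) : ℂ) * I) * a, Real.tan ((hi - lo) / 2),
      mul_ne_zero (exp_ne_zero _) ha0, Real.tan_pos_of_pos_of_lt_pi_div_two hγ0 (by linarith), ?_,
      fun x y h1 h2 h3 => ?_, fun x y h1 h2 h3 => ?_⟩
    · rw [← Real.tan_pi_div_four]
      exact Real.strictMonoOn_tan ⟨by linarith, by linarith⟩ ⟨by linarith, by linarith⟩ hγ1
    · obtain ⟨-, θ, g1, g2⟩ := pR x y h1 h2 h3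
      have := abs_le.1 g1
      have h4 := rot_cone (ψ := (lo + hi) / 2) (γ := (hi - lo) / 2) g2 (by
        rw [abs_le]; constructor <;> linarith) (by linarith)
      rwa [← mul_assoc] at h4
    · obtain ⟨-, θ, g1, g2⟩ := pL x y h1 h2 h3
      have := abs_le.1 g1
      have h4 := rot_cone (ψ := (lo + hi) / 2) (γ := (hi - lo) / 2) g2 (by
        rw [abs_le]; constructor <;> linarith) (by linarith)
      rw [← mul_assoc] at h4
      rw [show exp (-(((lo + hi) / 2 : ℝ) : ℂ) * I) * a * (c y - c x) =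
        -(exp (-(((lo + hi) / 2 : ℝ) : ℂ) * I) * a * (c x - c y)) by ring, neg_im, abs_neg]
      exact h4
  · left
    push Not at hcase
    obtain ⟨σ, hσ, hσβ⟩ : ∃ σ : ℝ, (σ = 1 ∨ σ = -1) ∧ σ * β = |β| := by
      rcases le_total 0 β with h | h
      · exact ⟨1, Or.inl rfl, by rw [abs_of_nonneg h, one_mul]⟩
      · exact ⟨-1, Or.inr rfl, by rw [abs_of_nonpos h]; ring⟩
    have hβπ : |β| ≤ Real.pi := abs_le.2 ⟨hβ1.le, hβ2⟩
    obtain ⟨ψ, hψ⟩ : ∃ ψ, ψ = (β + σ * (α1 - α2)) / 2 := ⟨_, rfl⟩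
    have sn : ∀ t, 0 < σ * t → σ * t < Real.pi → 0 < σ * Real.sin t := by
      intro t h1 h2
      rcases hσ with h | h
      · rw [h, one_mul] at h1 h2 ⊢
        exact Real.sin_pos_of_pos_of_lt_pi h1 h2
      · rw [h] at h1 h2 ⊢
        have := Real.sin_pos_of_pos_of_lt_pi (x := -t) (by linarith) (by linarith)
        rw [Real.sin_neg] at this
        linarith
    have σσ : σ * σ = 1 := by rcases hσ with h | h <;> rw [h] <;> norm_num
    have σθ : ∀ t : ℝ, |σ * t| = |t| := fun t => by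
      rcases hσ with h | h <;> rw [h]
      · rw [one_mul]
      · rw [neg_one_mul, abs_neg]
    have eψ : σ * ψ = (|β| + (α1 - α2)) / 2 := by
      rw [hψ, ← hσβ]
      linear_combination (α1 - α2) / 2 * σσ
    have qR : ∀ x y, s ≤ x → x < y → y < s + ρ →
        0 < -σ * (exp (-(ψ : ℂ) * I) * (a * (c y - c x))).im := by
      intro x y h1 h2 h3
      obtain ⟨g0, θ, g1, g2⟩ := pR x y h1 h2 h3
      rw [rot_im g2]
      have hn : 0 < ‖a * (c y - c x)‖ := norm_pos_iff.2 g0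
      have h4 := abs_le.1 ((σθ θ).trans_le g1)
      have h5 := sn (ψ - θ) (by rw [mul_sub, eψ]; linarith) (by rw [mul_sub, eψ]; linarith)
      rw [show ψ - θ = -(θ - ψ) by ring, Real.sin_neg] at h5
      have h6 : -σ * (‖a * (c y - c x)‖ * Real.sin (θ - ψ)) =
        ‖a * (c y - c x)‖ * (σ * -Real.sin (θ - ψ)) := by ring
      rw [h6]
      exact mul_pos hn h5
    have qL : ∀ x y, s - ρ < x → x < y → y ≤ s →
        0 < -σ * (exp (-(ψ : ℂ) * I) * (a * (c y - c x))).im := by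
      intro x y h1 h2 h3
      obtain ⟨g0, θ, g1, g2⟩ := pL x y h1 h2 h3
      have h7 : exp (-(ψ : ℂ) * I) * (a * (c y - c x)) =
        -(exp (-(ψ : ℂ) * I) * (a * (c x - c y))) := by ring
      rw [h7, neg_im, rot_im g2]
      have hn : 0 < ‖a * (c x - c y)‖ := norm_pos_iff.2 g0
      have h4 := abs_le.1 ((σθ (θ - β)).trans_le g1)
      rw [mul_sub, hσβ] at h4
      have h5 := sn (θ - ψ) (by rw [mul_sub, eψ]; linarith) (by rw [mul_sub, eψ]; linarith)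
      have h6 : -σ * -(‖a * (c x - c y)‖ * Real.sin (θ - ψ)) =
        ‖a * (c x - c y)‖ * (σ * Real.sin (θ - ψ)) := by ring
      rw [h6]
      exact mul_pos hn h5
    refine ⟨ρ, hρ, (σ : ℂ) * I * (exp (-(ψ : ℂ) * I) * a), fun x y hx hy hxy => ?_⟩
    have e3 : ∀ z : ℂ, ((σ : ℂ) * I * (exp (-(ψ : ℂ) * I) * a) * z).re =
        -σ * (exp (-(ψ : ℂ) * I) * (a * z)).im := by
      intro z
      rw [show (σ : ℂ) * I * (exp (-(ψ : ℂ) * I) * a) * z =
        (σ : ℂ) * (I * (exp (-(ψ : ℂ) * I) * (a * z))) by ring, re_ofReal_mul, I_mul_re]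
      ring
    rw [e3]
    obtain ⟨hx1, hx2⟩ := abs_lt.1 hx
    obtain ⟨hy1, hy2⟩ := abs_lt.1 hy
    rcases le_total s x with h | h
    · exact qR x y h hxy (by linarith)
    · rcases le_total y s with h' | h'
      · exact qL x y (by linarith) hxy h'
      · rcases eq_or_lt_of_le h with h1 | h1
        · exact qR x y h1.ge hxy (by linarith)
        · rcases eq_or_lt_of_le h' with h2 | h2
          · exact qL x y (by linarith) hxy h2.ge
          · have g1 := qL x s (by linarith) h1 le_rfl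
            have g2 := qR s y le_rfl h2 (by linarith)
            have : exp (-(ψ : ℂ) * I) * (a * (c y - c x)) = exp (-(ψ : ℂ) * I) * (a * (c s - c x)) +
              exp (-(ψ : ℂ) * I) * (a * (c y - c s)) := by ring
            rw [this, add_im]
            linarith

end Pool.Agent.N919.Cusp
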