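import Pool.Agent.N919.Cusp.Cor2

/-! Open conditions and one-sided derivatives. -/

set_option autoImplicit false
open Complex Set Topology Metric

namespace Pool.Agent.N919.Cusp

open Pool.Agent.H763R2 Pool.Agent.H763R2.An Pool.Agent.W675.Peg Pool.Agent.TH569.Peg
open Pool.Agent.H763R2.Dm (NoSq floor_const)
open Pool.Agent.Y535.PEG

variable {c : ℝ → ℂ}

/-- the branch after `s` -/
def Aft (c : ℝ → ℂ) (s κ : ℝ) (w : ℂ) : Prop := w ≠ 0 ∧ ∃ ρ > 0, ∀ x y, s < x → x < y →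
  y < s + ρ → |(w * (c y - c x)).im| ≤ κ * (w * (c y - c x)).re

/-- the branch before `s`, chords directed away from `c s` -/
def Bef (c : ℝ → ℂ) (s κ : ℝ) (w : ℂ) : Prop := w ≠ 0 ∧ ∃ ρ > 0, ∀ x y, s - ρ < x → x < y →
  y < s → |(w * (c x - c y)).im| ≤ κ * (w * (c x - c y)).re

theorem Aft.cl (hc : Continuous c) {s κ : ℝ} {w : ℂ} (h : Aft c s κ w) : ∃ ρ > 0, ∀ x y, s ≤ x →
    x < y → y < s + ρ → |(w * (c y - c x)).im| ≤ κ * (w * (c y - c x)).re := by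
  obtain ⟨-, ρ, hρ, H⟩ := h
  refine ⟨ρ, hρ, fun x y h1 h2 h3 => ?_⟩
  rcases eq_or_lt_of_le h1 with h | h
  · subst h
    refine ContinuousWithinAt.closure_le (s := Ioo s y) (x := s)
      (f := fun x => |(w * (c y - c x)).im|) (g := fun x => κ * (w * (c y - c x)).re) ?_ ?_ ?_
      (fun x hx => H x y hx.1 hx.2 h3)
    · rw [closure_Ioo h2.ne]; exact ⟨le_rfl, h2.le⟩
    · have : Continuous fun x => |(w * (c y - c x)).im| := by fun_prop
      exact this.continuousWithinAt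
    · have : Continuous fun x => κ * (w * (c y - c x)).re := by fun_prop
      exact this.continuousWithinAt
  · exact H x y h h2 h3

theorem Bef.cl (hc : Continuous c) {s κ : ℝ} {w : ℂ} (h : Bef c s κ w) : ∃ ρ > 0, ∀ x y, s - ρ < x →
    x < y → y ≤ s → |(w * (c y - c x)).im| ≤ κ * (w * (c x - c y)).re := by
  obtain ⟨-, ρ, hρ, H⟩ := h
  have e : ∀ x y, |(w * (c y - c x)).im| = |(w * (c x - c y)).im| := fun x y => by
    rw [show w * (c y - c x) = -(w * (c x - c y)) by ring, neg_im, abs_neg]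
  refine ⟨ρ, hρ, fun x y h1 h2 h3 => ?_⟩
  rw [e]
  rcases eq_or_lt_of_le h3 with h | h
  · subst h
    refine ContinuousWithinAt.closure_le (s := Ioo x y) (x := y)
      (f := fun y => |(w * (c x - c y)).im|) (g := fun y => κ * (w * (c x - c y)).re) ?_ ?_ ?_
      (fun t ht => H x t h1 ht.1 ht.2)
    · rw [closure_Ioo h2.ne]; exact ⟨h2.le, le_rfl⟩
    · have : Continuous fun y => |(w * (c x - c y)).im| := by fun_prop
      exact this.continuousWithinAt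
    · have : Continuous fun y => κ * (w * (c x - c y)).re := by fun_prop
      exact this.continuousWithinAt
  · exact H x y h1 h2 h

theorem csp_of (hc : Continuous c) {s κ : ℝ} {w : ℂ} (κ0 : 0 < κ) (κ1 : κ < 1)
    (h1 : Aft c s κ w) (h2 : Bef c s κ w) : Csp c s := by
  obtain ⟨ρ1, hρ1, H1⟩ := h1.cl hc
  obtain ⟨ρ2, hρ2, H2⟩ := h2.cl hc
  refine ⟨min ρ1 ρ2, lt_min hρ1 hρ2, w, κ, h1.1, κ0, κ1, fun x y g1 g2 g3 => ?_,
    fun x y g1 g2 g3 => ?_⟩
  · exact H1 x y g1 g2 (by have := min_le_left ρ1 ρ2; linarith)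
  · exact H2 x y (by have := min_le_right ρ1 ρ2; linarith) g2 g3

theorem sdR_of (hc : Continuous c) {s κ : ℝ} {w : ℂ} (h1 : Aft c s κ w) : SdR κ c s := by
  obtain ⟨ρ1, hρ1, H1⟩ := h1.cl hc
  exact ⟨ρ1, hρ1, w, h1.1, H1⟩

theorem sdL_of (hc : Continuous c) {s κ : ℝ} {w : ℂ} (h1 : Bef c s κ w) : SdL κ c s := by
  obtain ⟨ρ1, hρ1, H1⟩ := h1.cl hc
  refine ⟨ρ1, hρ1, -w, neg_ne_zero.2 h1.1, fun x y g1 g2 g3 => ?_⟩
  have := H1 x y g1 g2 g3
  rw [show -w * (c y - c x) = w * (c x - c y) by ring]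
  rwa [show w * (c y - c x) = -(w * (c x - c y)) by ring, neg_im, abs_neg] at this

/-- near `s`, except at `s` itself, the curve is differentiable, and its derivative has non-zero
one-sided limits at `s` -/
def OsC (c : ℝ → ℂ) (s : ℝ) : Prop := (∀ᶠ t in 𝓝[≠] s, DifferentiableAt ℝ c t) ∧
  (∃ v, v ≠ 0 ∧ Filter.Tendsto (deriv c) (𝓝[>] s) (𝓝 v)) ∧
  ∃ v, v ≠ 0 ∧ Filter.Tendsto (deriv c) (𝓝[<] s) (𝓝 v)

theorem mvt2 {x y ε : ℝ} {v : ℂ} (hxy : x < y) (hd : ∀ t ∈ Icc x y, DifferentiableAt ℝ c t)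
    (h : ∀ t ∈ Icc x y, ‖deriv c t - v‖ ≤ ε) :
    ‖c y - c x - v * (y - x : ℝ)‖ ≤ ε * (y - x) := by
  have hl : ∀ t : ℝ, HasDerivAt (fun t : ℝ => v * (t : ℂ)) v t := fun t => by
    have := (Complex.ofRealCLM.hasDerivAt (x := t)).const_mul v
    simp only [ofRealCLM_apply, ofReal_one, mul_one] at this
    exact this
  have h1 := Convex.norm_image_sub_le_of_norm_deriv_le (𝕜 := ℝ) (f := fun t => c t - v * (t : ℝ))
    (C := ε) (s := Icc x y) (x := x) (y := y)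
    (fun t ht => (hd t ht).sub (hl t).differentiableAt) (fun t ht => by
      have : deriv (fun t => c t - v * (t : ℝ)) t = deriv c t - v :=
        ((hd t ht).hasDerivAt.sub (hl t)).deriv
      rw [this]
      exact h t ht) (convex_Icc x y) ⟨le_rfl, hxy.le⟩ ⟨hxy.le, le_rfl⟩
  have e : c y - c x - v * ((y - x : ℝ) : ℂ) = c y - v * (y : ℂ) - (c x - v * (x : ℂ)) := by
    push_cast; ring
  rw [e]
  refine h1.trans (le_of_eq ?_)
  rw [Real.norm_of_nonneg (by linarith)]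

theorem aft_of_deriv {s : ℝ} (h : OsC c s) {κ : ℝ} (κ0 : 0 < κ) :
    (∃ w, Aft c s κ w) ∧ ∃ w, Bef c s κ w := by
  obtain ⟨hd, ⟨v, hv, hR⟩, ⟨u, hu, hL⟩⟩ := h
  have hε : ∀ v : ℂ, v ≠ 0 → ∃ ε > 0, ε * (1 + κ) ≤ κ * ‖v‖ := fun v hv => by
    have : 0 < ‖v‖ := norm_pos_iff.2 hv
    exact ⟨κ * ‖v‖ / (1 + κ), by positivity, by rw [div_mul_cancel₀]; positivity⟩
  constructor
  · obtain ⟨ε, ε0, hε⟩ := hε _ hv
    have h1 := hR (Metric.closedBall_mem_nhds v ε0)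
    have h2 : ∀ᶠ t in 𝓝[>] s, DifferentiableAt ℝ c t :=
      hd.filter_mono (nhdsWithin_mono s fun t ht => ne_of_gt ht)
    have h3 := Filter.inter_mem h2 h1
    rw [mem_nhdsGT_iff_exists_Ioo_subset] at h3
    obtain ⟨r, hr, hsub⟩ := h3
    refine ⟨(starRingEnd ℂ) v, by simpa using hv, r - s, sub_pos.2 hr, fun x y h1 h2 h3 => ?_⟩
    refine cone_mvt (sub_pos.2 h2) κ0 hε (mvt2 h2 (fun t ht => ?_) fun t ht => ?_)
    · exact (hsub (show t ∈ Ioo s r from ⟨by linarith [ht.1], by linarith [ht.2]⟩)).1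
    · have := (hsub (show t ∈ Ioo s r from ⟨by linarith [ht.1], by linarith [ht.2]⟩)).2
      simpa [dist_eq_norm] using this
  · obtain ⟨ε, ε0, hε⟩ := hε _ hu
    have h1 := hL (Metric.closedBall_mem_nhds u ε0)
    have h2 : ∀ᶠ t in 𝓝[<] s, DifferentiableAt ℝ c t :=
      hd.filter_mono (nhdsWithin_mono s fun t ht => ne_of_lt ht)
    have h3 := Filter.inter_mem h2 h1
    rw [mem_nhdsLT_iff_exists_Ioo_subset] at h3
    obtain ⟨r, hr, hsub⟩ := h3
    refine ⟨-(starRingEnd ℂ) u, by simpa using hu, s - r, sub_pos.2 hr, fun x y h1 h2 h3 => ?_⟩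
    rw [show -(starRingEnd ℂ) u * (c x - c y) = (starRingEnd ℂ) u * (c y - c x) by ring]
    refine cone_mvt (sub_pos.2 h2) κ0 hε (mvt2 h2 (fun t ht => ?_) fun t ht => ?_)
    · exact (hsub (show t ∈ Ioo r s from ⟨by linarith [ht.1], by linarith [ht.2]⟩)).1
    · have := (hsub (show t ∈ Ioo r s from ⟨by linarith [ht.1], by linarith [ht.2]⟩)).2
      simpa [dist_eq_norm] using this

/-- the final form -/
theorem final (hc : Continuous c) (hp : ∀ t, c (t + 1) = c t) (hinj : InjOn c (Ico 0 1))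
    (h : ∀ s, Mon c s ∨ (∃ w κ, 0 < κ ∧ κ < 1 ∧ Aft c s κ w ∧ Bef c s κ w) ∨
      (∃ w₁ w₂ κ₁ κ₂, 0 < κ₁ ∧ 0 < κ₂ ∧ κ₁ + κ₂ + κ₁ * κ₂ < 1 ∧ Aft c s κ₁ w₁ ∧ Bef c s κ₂ w₂) ∨
      OsC c s) :
    ∃ z w : ℂ, w ≠ 0 ∧ z ∈ range c ∧ z + w ∈ range c ∧ z + w + I * w ∈ range c ∧
      z + I * w ∈ range c := by
  have L : Loop c := ⟨hc, hp⟩
  have J : Inj c := by
    intro x y hxy hy he
    have e1 : c (Int.fract x) = c x := by
      have := L.per_int (Int.fract x) ⌊x⌋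
      rw [Int.fract_add_floor] at this
      exact this.symm
    have e2 : c (Int.fract y) = c y := by
      have := L.per_int (Int.fract y) ⌊y⌋
      rw [Int.fract_add_floor] at this
      exact this.symm
    have e3 := hinj ⟨Int.fract_nonneg x, Int.fract_lt_one x⟩
      ⟨Int.fract_nonneg y, Int.fract_lt_one y⟩ (by rw [e1, e2, he])
    obtain ⟨m, hm⟩ := Int.fract_eq_fract.1 e3
    have h1 : (m : ℝ) < 0 := by linarith
    have h2 : (-1 : ℝ) < m := by linarith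
    have h3 : m < 0 := by exact_mod_cast h1
    have h4 : -1 < m := by exact_mod_cast h2
    omega
  refine main hc hp J fun s => ?_
  rcases h s with h | ⟨w, κ, κ0, κ1, g1, g2⟩ | ⟨w1, w2, κ1, κ2, κ10, κ20, hκ, g1, g2⟩ | h
  · exact Or.inl h
  · exact Or.inr (csp_of hc κ0 κ1 g1 g2)
  · exact mon_or_csp2 J κ10 κ20 hκ (sdR_of hc g1) (sdL_of hc g2)
  · obtain ⟨⟨w1, g1⟩, ⟨w2, g2⟩⟩ := aft_of_deriv h (κ := 1 / 4) (by norm_num)
    exact mon_or_csp2 J (κ1 := 1 / 4) (κ2 := 1 / 4) (by norm_num) (by norm_num) (by norm_num)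
      (sdR_of hc g1) (sdL_of hc g2)

end Pool.Agent.N919.Cusp
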