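import Pool.Agent.Y535.PEG.ExD

/-! Moving a short chord through a cusp: the half turns do not change. -/

set_option autoImplicit false
open Complex Set Topology Metric

namespace Pool.Agent.N919.Cusp

open Pool.Agent.H763R2 Pool.Agent.H763R2.An Pool.Agent.W675.Peg Pool.Agent.TH569.Peg
open Pool.Agent.H763R2.Dm (NoSq floor_const)
open Pool.Agent.Y535.PEG

variable {c : ℝ → ℂ} {θ : ℝ → ℝ → ℝ} {g : ℤ}

/-- first the end of the chord moves from `a` to `b`, then its start; during the first stage the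
fourth vertex of the left square is off the curve, during the second stage the third one -/
def Fr (c : ℝ → ℂ) (a b : ℝ) : Prop :=
  (∀ y ∈ Ioc a b, DD c a y ∉ range c) ∧ ∀ x ∈ Ico a b, CC c x b ∉ range c

theorem fl_two {x : ℝ} {k m : ℤ} (h1 : ⌊(x + Real.pi / 2) / Real.pi⌋ = k)
    (h2 : ⌊x / Real.pi⌋ = m) (h : Even (m - k)) : m = k := by
  have hπ := Real.pi_pos
  have e : (x + Real.pi / 2) / Real.pi = x / Real.pi + 1 / 2 := by field_simp
  rw [e] at h1
  have a1 := Int.floor_le (x / Real.pi + 1 / 2)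
  have a2 := Int.lt_floor_add_one (x / Real.pi + 1 / 2)
  have b1 := Int.floor_le (x / Real.pi)
  have b2 := Int.lt_floor_add_one (x / Real.pi)
  rw [h1] at a1 a2
  rw [h2] at b1 b2
  have c1 : (k : ℝ) < m + 2 := by linarith
  have c2 : (m : ℝ) < k + 1 := by linarith
  have c1' : k < m + 2 := by exact_mod_cast c1
  have c2' : m < k + 1 := by exact_mod_cast c2
  obtain ⟨r, hr⟩ := h
  omega

/-- the half turns agree at the ends of a free path of chords in two stages -/
theorem corner_eq (L : Loop c) (J : Inj c) {z0 : ℂ} (h0 : 0 < mgc c z0)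
    (A : Ang c (mgc c) θ g) {a b : ℝ} (hab : a < b) (hba : b < a + 1)
    (Ca : Cone c a) (Cb : Cone c b) {k m : ℤ} (h1 : KL θ a k) (h2 : KL θ b m)
    (H : Fr c a b) : m = k := by
  have hpar := KL.parity L J h0 A Ca Cb h1 h2
  obtain ⟨r1, hr1, sa⟩ := cone_sign L J Ca
  obtain ⟨r3, hr3, ka⟩ := h1
  obtain ⟨r4, hr4, kb⟩ := h2
  have nz : ∀ z, z ∉ range c → mgc c z ≠ 0 := fun z h hz => h ((mgc_sg L).zero L |>.1 hz)
  obtain ⟨ε, hε, e1, e2, e3, e4⟩ : ∃ ε > 0, ε < r1 ∧ ε < r3 ∧ ε < r4 ∧ ε < b - a := by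
    have hm : 0 < min (min r1 r3) (min r4 (b - a)) := by
      have : 0 < b - a := by linarith
      positivity
    refine ⟨min (min r1 r3) (min r4 (b - a)) / 2, by positivity, ?_, ?_, ?_, ?_⟩
    · have := (min_le_left (min r1 r3) (min r4 (b - a))).trans (min_le_left _ _)
      linarith
    · have := (min_le_left (min r1 r3) (min r4 (b - a))).trans (min_le_right _ _)
      linarith
    · have := (min_le_right (min r1 r3) (min r4 (b - a))).trans (min_le_left _ _)
      linarith
    · have := (min_le_right (min r1 r3) (min r4 (b - a))).trans (min_le_right _ _)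
      linarith
  -- first stage
  have f1 : ⌊(θ a (a + ε) + Real.pi / 2) / Real.pi⌋ = ⌊(θ a b + Real.pi / 2) / Real.pi⌋ := by
    refine floor_pre (V := Ioc a b) isPreconnected_Ioc (f := fun y => θ a y + Real.pi / 2)
      ?_ (fun y hy => ?_) ⟨by linarith, by linarith⟩ ⟨hab, le_rfl⟩
    · refine ContinuousOn.add ?_ continuousOn_const
      refine A.cont.comp (f := fun y : ℝ => ((a, y) : ℝ × ℝ)) (by fun_prop) ?_
      intro y hy
      exact ⟨hy.1, by simp only; linarith [hy.2]⟩
    · obtain ⟨r, hr, e5, -⟩ := A.ex a y hy.1 (by linarith [hy.2])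
      have h3 := nz _ (H.1 y hy)
      rw [e5] at h3
      rw [Real.sin_add_pi_div_two]
      exact right_ne_zero_of_mul h3
  have t1 : |a + ε - a| = ε := by rw [add_sub_cancel_left, abs_of_pos hε]
  have t0 : |a - a| = 0 := by simp
  have g1 := ka a (a + ε) (by rw [t0]; exact hr3) (by rw [t1]; exact e2) (by linarith)
  have g2 := fl_sh (cs_pos A (by linarith : a < a + ε) (by linarith)
    (sa a (a + ε) (by rw [t0]; exact hr1) (by rw [t1]; exact e1) (by linarith)).1)
  rw [g1, f1] at g2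
  -- second stage
  have f2 : ⌊θ (b - ε) b / Real.pi⌋ = ⌊θ a b / Real.pi⌋ := by
    refine floor_pre (V := Ico a b) isPreconnected_Ico (f := fun x => θ x b)
      ?_ (fun x hx => ?_) ⟨by linarith, by linarith⟩ ⟨le_rfl, hab⟩
    · refine A.cont.comp (f := fun x : ℝ => ((x, b) : ℝ × ℝ)) (by fun_prop) ?_
      intro x hx
      exact ⟨hx.2, by simp only; linarith [hx.1]⟩
    · obtain ⟨r, hr, -, e5⟩ := A.ex x b hx.2 (by linarith [hx.1])
      have h3 := nz _ (H.2 x hx)
      rw [e5] at h3
      exact right_ne_zero_of_mul h3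
  have t2 : |b - ε - b| = ε := by rw [show b - ε - b = -ε by ring, abs_neg, abs_of_pos hε]
  have t3 : |b - b| = 0 := by simp
  have g3 := kb (b - ε) b (by rw [t2]; exact e3) (by rw [t3]; exact hr4) (by linarith)
  rw [f2] at g3
  exact fl_two g2 g3 hpar

/-- the integer charge of a curve without inscribed squares -/
theorem exChargeC (L : Loop c) (J : Inj c) (nosq : NoSq (range c)) :
    ∃ (x : ℝ → ℤ) (g : ℤ), Odd g ∧
      (∀ s, Cone c s → x (s + 1) = x s + g) ∧
      (∀ s t, AR c s t → (∀ r ∈ Icc s t, Mon c r) → x t = x s) ∧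
      (∀ s t, AR c s t → (Fr c s t ∨ Fr (fun r => c (-r)) (-t) (-s)) → x t = x s) := by
  classical
  obtain ⟨θ, g, A, ho⟩ := exists_odd L J nosq
  obtain ⟨z0, h0⟩ := exists_pos L J nosq
  by_cases hex : ∃ s0, Cone c s0
  · obtain ⟨s0, C0⟩ := hex
    obtain ⟨l0, hl0⟩ := exKL L J A C0
    have ex1 : ∀ s, ∃ k : ℤ, Cone c s → KL θ s (l0 + 2 * k) := fun s => by
      by_cases hs : Cone c s
      · obtain ⟨k, hk⟩ := exKL L J A hs
        obtain ⟨m, hm⟩ := KL.parity L J h0 A C0 hs hl0 hk
        exact ⟨m, fun _ => by rwa [show l0 + 2 * m = k by linarith]⟩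
      · exact ⟨0, fun h => absurd h hs⟩
    choose x hx using ex1
    refine ⟨x, g, ho, ?_, ?_, ?_⟩
    · intro s hs
      have hs1 := hs.per L
      have e1 := (hx (s + 1) hs1).uniq ((hx s hs).per A)
      linarith
    · intro s t h hM
      have := monoX jP jT2 Y407.PEG.sgU jI L J nosq A h.ab h.ba h.ha h.hb hM (hx s h.ha) (hx t h.hb)
      linarith
    · rintro s t h (H | H)
      · have := corner_eq L J h0 A h.ab h.ba h.ha h.hb (hx s h.ha) (hx t h.hb) H
        linarith
      · obtain ⟨ra, k1⟩ := exKR L J A h.ha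
        obtain ⟨rb, k2⟩ := exKR L J A h.hb
        have e1 := corner_eq L.rev (J.rev L) (z0 := z0) (by rw [mgc_rev L]; exact h0)
          (Ang.rev L A) (a := -t) (b := -s) (by linarith [h.ab]) (by linarith [h.ba]) h.hb.rev
          h.ha.rev k2.rev k1.rev H
        have e2 := parityX jP jT1 Y407.PEG.sgU jI L J nosq A h.ab h.ba h.ha h.hb (hx s h.ha)
          (hx t h.hb) k1 k2
        linarith
  · refine ⟨0, g, ho, ?_, ?_, ?_⟩
    · exact fun s hs => absurd ⟨s, hs⟩ hex
    · exact fun s t h => absurd ⟨s, h.ha⟩ hex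
    · exact fun s t h => absurd ⟨s, h.ha⟩ hex

end Pool.Agent.N919.Cusp
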