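import Pool.Agent.N919.Cusp.Sign
import Pool.Agent.N919.Cusp.Free

/-! Free paths of chords through a cusp. -/

set_option autoImplicit false
open Complex Set Topology Metric

namespace Pool.Agent.N919.Cusp

open Pool.Agent.H763R2 Pool.Agent.H763R2.An Pool.Agent.W675.Peg Pool.Agent.TH569.Peg
open Pool.Agent.H763R2.Dm (NoSq floor_const)
open Pool.Agent.Y535.PEG
open Pool.Agent.Y450.Stab (Lip ESq Prim)

variable {c : ℝ → ℂ}

/-- near the parameter `p` both branches of the curve are graphs of Lipschitz functions with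
constant `κ < 1` over a common half-line -/
def Csp (c : ℝ → ℂ) (p : ℝ) : Prop := ∃ ρ > 0, ∃ w : ℂ, ∃ κ : ℝ, w ≠ 0 ∧ 0 < κ ∧ κ < 1 ∧
  (∀ x y, p ≤ x → x < y → y < p + ρ → |(w * (c y - c x)).im| ≤ κ * (w * (c y - c x)).re) ∧
  ∀ x y, p - ρ < x → x < y → y ≤ p → |(w * (c y - c x)).im| ≤ κ * (w * (c x - c y)).re

/-- coordinates of a point -/
noncomputable def cu (c : ℝ → ℂ) (p : ℝ) (w z : ℂ) : ℝ := (w * (z - c p)).re
noncomputable def cv (c : ℝ → ℂ) (p : ℝ) (w z : ℂ) : ℝ := (w * (z - c p)).im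

/-- the branches near a cusp: `F` for the outgoing one and `G` for the incoming one -/
structure Gm (c : ℝ → ℂ) (p r κ H : ℝ) (w : ℂ) (F G : ℝ → ℝ) : Prop where
  r0 : 0 < r
  r1 : r < 1 / 2
  κ0 : 0 < κ
  κ1 : κ < 1
  H0 : 0 < H
  w0 : w ≠ 0
  hF : Lip κ F
  hG : Lip κ G
  F0 : ∀ z, z ≤ 0 → F z = 0
  G0 : ∀ z, z ≤ 0 → G z = 0
  FH : ∀ z, H ≤ z → F z = F H
  GH : ∀ z, H ≤ z → G z = G H
  eF : ∀ t ∈ Icc p (p + r), cu c p w (c t) ≤ H → cv c p w (c t) = F (cu c p w (c t))
  eG : ∀ t ∈ Icc (p - r) p, cu c p w (c t) ≤ H → cv c p w (c t) = G (cu c p w (c t))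
  mF : StrictMonoOn (fun t => cu c p w (c t)) (Icc p (p + r))
  mG : StrictAntiOn (fun t => cu c p w (c t)) (Icc (p - r) p)
  HF : H ≤ cu c p w (c (p + r))
  HG : H ≤ cu c p w (c (p - r))

theorem Gm.rev {p r κ H : ℝ} {w : ℂ} {F G : ℝ → ℝ} (M : Gm c p r κ H w F G) :
    Gm (fun t => c (-t)) (-p) r κ H w G F := by
  have e1 : ∀ z, cu (fun t => c (-t)) (-p) w z = cu c p w z := fun z => by
    simp only [cu, neg_neg]
  have e2 : ∀ z, cv (fun t => c (-t)) (-p) w z = cv c p w z := fun z => by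
    simp only [cv, neg_neg]
  refine ⟨M.r0, M.r1, M.κ0, M.κ1, M.H0, M.w0, M.hG, M.hF, M.G0, M.F0, M.GH, M.FH, ?_, ?_, ?_, ?_, ?_, ?_⟩
  · intro t ht h
    rw [e1] at h
    rw [e1, e2]
    exact M.eG (-t) ⟨by linarith [ht.2], by linarith [ht.1]⟩ h
  · intro t ht h
    rw [e1] at h
    rw [e1, e2]
    exact M.eF (-t) ⟨by linarith [ht.2], by linarith [ht.1]⟩ h
  · intro x hx y hy hxy
    simp only [e1]
    exact M.mG (a := -y) (b := -x) ⟨by linarith [hy.2], by linarith [hy.1]⟩
      ⟨by linarith [hx.2], by linarith [hx.1]⟩ (by linarith)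
  · intro x hx y hy hxy
    simp only [e1]
    exact M.mF (a := -y) (b := -x) ⟨by linarith [hy.2], by linarith [hy.1]⟩
      ⟨by linarith [hx.2], by linarith [hx.1]⟩ (by linarith)
  · simp only [e1]
    rw [show -(-p + r) = p - r by ring]
    exact M.HG
  · simp only [e1]
    rw [show -(-p - r) = p + r by ring]
    exact M.HF

theorem cu_self (c : ℝ → ℂ) (p : ℝ) (w : ℂ) : cu c p w (c p) = 0 := by simp [cu]
theorem cv_self (c : ℝ → ℂ) (p : ℝ) (w : ℂ) : cv c p w (c p) = 0 := by simp [cv]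

theorem Csp.gm (L : Loop c) (J : Inj c) {p : ℝ} (h : Csp c p) {ρ' : ℝ} (hρ' : 0 < ρ') :
    ∃ r κ H w F G, r < ρ' ∧ Gm c p r κ H w F G := by
  obtain ⟨ρ, hρ, w, κ, w0, κ0, κ1, hR, hL⟩ := h
  obtain ⟨r, hr, r1, r2, r3⟩ : ∃ r > 0, r < ρ ∧ r < ρ' ∧ r < 1 / 2 := by
    have hm : 0 < min (min ρ ρ') (1 / 2) := by positivity
    refine ⟨min (min ρ ρ') (1 / 2) / 2, by positivity, ?_, ?_, ?_⟩
    · have := (min_le_left (min ρ ρ') (1 / 2)).trans (min_le_left _ _)
      linarith
    · have := (min_le_left (min ρ ρ') (1 / 2)).trans (min_le_right _ _)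
      linarith
    · have := min_le_right (min ρ ρ') (1 / 2)
      linarith
  set u : ℝ → ℝ := fun t => cu c p w (c t) with hu
  set v : ℝ → ℝ := fun t => cv c p w (c t) with hv
  have up : u p = 0 := cu_self c p w
  have vp : v p = 0 := cv_self c p w
  have uc : Continuous u := by
    have := L.cont
    simp only [hu, cu]
    fun_prop
  have eu : ∀ x y, (w * (c y - c x)).re = u y - u x := fun x y => by
    simp only [hu, cu]
    rw [← sub_re]; congr 1; ring
  have ev : ∀ x y, (w * (c y - c x)).im = v y - v x := fun x y => by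
    simp only [hv, cv]
    rw [← sub_im]; congr 1; ring
  have hne : ∀ x y, x < y → y < x + 1 → ¬ (u y = u x ∧ v y = v x) := by
    rintro x y h1 h2 ⟨h3, h4⟩
    have : w * (c y - c x) = 0 := by
      apply Complex.ext
      · rw [eu, h3, sub_self]; simp
      · rw [ev, h4, sub_self]; simp
    rcases mul_eq_zero.1 this with h | h
    · exact w0 h
    · exact J x y h1 h2 (sub_eq_zero.1 h).symm
  -- the two branches
  have bR : ∀ x ∈ Icc p (p + r), ∀ y ∈ Icc p (p + r), x < y → u x < u y ∧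
      |v y - v x| ≤ κ * (u y - u x) := by
    intro x hx y hy hxy
    have h1 := hR x y hx.1 hxy (by linarith [hy.2])
    rw [eu, ev] at h1
    refine ⟨?_, h1⟩
    by_contra hcon
    push Not at hcon
    have h2 : κ * (u y - u x) ≤ 0 := mul_nonpos_of_nonneg_of_nonpos κ0.le (by linarith)
    have h3 : |v y - v x| = 0 := le_antisymm (h1.trans h2) (abs_nonneg _)
    rw [h3] at h1
    have h4 : 0 ≤ u y - u x := (mul_nonneg_iff_of_pos_left κ0).1 h1
    exact hne x y hxy (by linarith [hy.2, hx.1]) ⟨by linarith, by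
      have := abs_eq_zero.1 h3
      linarith⟩
  have bL : ∀ x ∈ Icc (p - r) p, ∀ y ∈ Icc (p - r) p, x < y → u y < u x ∧
      |v y - v x| ≤ κ * (u x - u y) := by
    intro x hx y hy hxy
    have h1 := hL x y (by linarith [hx.1]) hxy hy.2
    rw [eu, ev] at h1
    refine ⟨?_, h1⟩
    by_contra hcon
    push Not at hcon
    have h2 : κ * (u x - u y) ≤ 0 := mul_nonpos_of_nonneg_of_nonpos κ0.le (by linarith)
    have h3 : |v y - v x| = 0 := le_antisymm (h1.trans h2) (abs_nonneg _)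
    rw [h3] at h1
    have h4 : 0 ≤ u x - u y := (mul_nonneg_iff_of_pos_left κ0).1 h1
    exact hne x y hxy (by linarith [hy.2, hx.1]) ⟨by linarith, by
      have := abs_eq_zero.1 h3
      linarith⟩
  have bR' : ∀ x ∈ Icc p (p + r), ∀ y ∈ Icc p (p + r), |v y - v x| ≤ κ * |u y - u x| := by
    intro x hx y hy
    rcases lt_trichotomy x y with h | h | h
    · obtain ⟨h1, h2⟩ := bR x hx y hy h
      rwa [abs_of_pos (by linarith : 0 < u y - u x)]
    · rw [h]; simp
    · obtain ⟨h1, h2⟩ := bR y hy x hx h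
      rw [abs_sub_comm, abs_sub_comm (u y)]
      rwa [abs_of_pos (by linarith : 0 < u x - u y)]
  have bL' : ∀ x ∈ Icc (p - r) p, ∀ y ∈ Icc (p - r) p, |v y - v x| ≤ κ * |u y - u x| := by
    intro x hx y hy
    rcases lt_trichotomy x y with h | h | h
    · obtain ⟨h1, h2⟩ := bL x hx y hy h
      rw [abs_sub_comm (u y)]
      rwa [abs_of_pos (by linarith : 0 < u x - u y)]
    · rw [h]; simp
    · obtain ⟨h1, h2⟩ := bL y hy x hx h
      rw [abs_sub_comm]
      rwa [abs_of_pos (by linarith : 0 < u y - u x)]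
  have mp : p ∈ Icc p (p + r) := ⟨le_rfl, by linarith⟩
  have mp' : p ∈ Icc (p - r) p := ⟨by linarith, le_rfl⟩
  have mr : p + r ∈ Icc p (p + r) := ⟨by linarith, le_rfl⟩
  have ml : p - r ∈ Icc (p - r) p := ⟨le_rfl, by linarith⟩
  have HR : 0 < u (p + r) := by
    have := (bR p mp (p + r) mr (by linarith)).1
    linarith
  have HL : 0 < u (p - r) := by
    have := (bL (p - r) ml p mp' (by linarith)).1
    linarith
  set H := min (u (p + r)) (u (p - r)) with hH
  have H0 : 0 < H := lt_min HR HL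
  set cl : ℝ → ℝ := fun z => max 0 (min z H) with hcl
  have cl0 : ∀ z, 0 ≤ cl z := fun z => le_max_left _ _
  have cl1 : ∀ z, cl z ≤ H := fun z => max_le H0.le (min_le_right _ _)
  have clL : ∀ z z', |cl z - cl z'| ≤ |z - z'| := by
    intro z z'
    have h1 := abs_max_sub_max_le_max 0 (min z H) 0 (min z' H)
    rw [sub_self, abs_zero] at h1
    have h2 := abs_min_sub_min_le_max z H z' H
    rw [sub_self, abs_zero] at h2
    refine h1.trans (max_le (abs_nonneg _) (h2.trans (max_le le_rfl (abs_nonneg _))))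
  have cle : ∀ z, 0 ≤ z → z ≤ H → cl z = z := fun z h1 h2 => by
    simp only [hcl]
    rw [min_eq_left h2, max_eq_right h1]
  have clz : ∀ z, z ≤ 0 → cl z = 0 := fun z h1 => by
    simp only [hcl]
    exact max_eq_left ((min_le_left _ _).trans h1)
  have exR : ∀ z, ∃ t ∈ Icc p (p + r), u t = cl z := fun z =>
    intermediate_value_Icc (by linarith) uc.continuousOn
      ⟨by rw [up]; exact cl0 z, (cl1 z).trans (min_le_left _ _)⟩
  have exL : ∀ z, ∃ t ∈ Icc (p - r) p, u t = cl z := fun z =>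
    intermediate_value_Icc' (by linarith) uc.continuousOn
      ⟨by rw [up]; exact cl0 z, (cl1 z).trans (min_le_right _ _)⟩
  choose tR hR1 hR2 using exR
  choose tL hL1 hL2 using exL
  have clH : ∀ z, H ≤ z → cl z = cl H := fun z hz => by
    simp only [hcl]
    rw [min_eq_right hz, min_self]
  refine ⟨r, κ, H, w, fun z => v (tR z), fun z => v (tL z), r2, hr, r3, κ0, κ1, H0, w0, ?_, ?_,
    ?_, ?_, ?_, ?_, ?_, ?_, ?_, ?_, ?_, ?_⟩
  · intro z z'
    refine (bR' _ (hR1 z') _ (hR1 z)).trans ?_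
    rw [hR2, hR2]
    exact mul_le_mul_of_nonneg_left (clL z z') κ0.le
  · intro z z'
    refine (bL' _ (hL1 z') _ (hL1 z)).trans ?_
    rw [hL2, hL2]
    exact mul_le_mul_of_nonneg_left (clL z z') κ0.le
  · intro z hz
    have h := bR' p mp _ (hR1 z)
    rw [hR2, up, vp, clz z hz] at h
    simp only [sub_zero, abs_zero, mul_zero] at h
    exact abs_nonpos_iff.1 h
  · intro z hz
    have h := bL' p mp' _ (hL1 z)
    rw [hL2, up, vp, clz z hz] at h
    simp only [sub_zero, abs_zero, mul_zero] at h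
    exact abs_nonpos_iff.1 h
  · intro z hz
    have h := bR' _ (hR1 H) _ (hR1 z)
    rw [hR2, hR2, clH z hz, sub_self, abs_zero, mul_zero] at h
    exact sub_eq_zero.1 (abs_nonpos_iff.1 h)
  · intro z hz
    have h := bL' _ (hL1 H) _ (hL1 z)
    rw [hL2, hL2, clH z hz, sub_self, abs_zero, mul_zero] at h
    exact sub_eq_zero.1 (abs_nonpos_iff.1 h)
  · intro t ht hle
    have hle' : u t ≤ H := hle
    have h0 : 0 ≤ u t := by
      rcases eq_or_lt_of_le ht.1 with h | h
      · rw [← h, up]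
      · have := (bR p mp t ht h).1
        linarith
    have h := bR' _ (hR1 (u t)) t ht
    rw [hR2, cle _ h0 hle'] at h
    simp only [sub_self, abs_zero, mul_zero] at h
    have := abs_nonpos_iff.1 h
    show v t = v (tR (u t))
    linarith
  · intro t ht hle
    have hle' : u t ≤ H := hle
    have h0 : 0 ≤ u t := by
      rcases eq_or_lt_of_le ht.2 with h | h
      · rw [h, up]
      · have := (bL t ht p mp' h).1
        linarith
    have h := bL' _ (hL1 (u t)) t ht
    rw [hL2, cle _ h0 hle'] at h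
    simp only [sub_self, abs_zero, mul_zero] at h
    have := abs_nonpos_iff.1 h
    show v t = v (tL (u t))
    linarith
  · exact fun x hx y hy hxy => (bR x hx y hy hxy).1
  · exact fun x hx y hy hxy => (bL x hx y hy hxy).1
  · exact min_le_left _ _
  · exact min_le_right _ _

variable {p r κ H : ℝ} {w : ℂ} {F G : ℝ → ℝ}

theorem cu_cont (L : Loop c) : Continuous fun t => cu c p w (c t) := by
  have := L.cont
  unfold cu
  fun_prop

theorem Gm.exF (M : Gm c p r κ H w F G) (L : Loop c) {z : ℝ} (h0 : 0 ≤ z) (h1 : z ≤ H) :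
    ∃ t ∈ Icc p (p + r), cu c p w (c t) = z :=
  intermediate_value_Icc (by linarith [M.r0]) (cu_cont L).continuousOn
      ⟨by rw [cu_self]; exact h0, h1.trans M.HF⟩

theorem Gm.exG (M : Gm c p r κ H w F G) (L : Loop c) {z : ℝ} (h0 : 0 ≤ z) (h1 : z ≤ H) :
    ∃ t ∈ Icc (p - r) p, cu c p w (c t) = z :=
  intermediate_value_Icc' (by linarith [M.r0]) (cu_cont L).continuousOn
      ⟨by rw [cu_self]; exact h0, h1.trans M.HG⟩

theorem cuv_inj (w0 : w ≠ 0) {z z' : ℂ} (h1 : cu c p w z = cu c p w z')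
    (h2 : cv c p w z = cv c p w z') : z = z' := by
  have : w * (z - c p) = w * (z' - c p) := Complex.ext h1 h2
  have := mul_left_cancel₀ w0 this
  exact sub_left_injective this

/-- one branch is above the other one -/
theorem Gm.sgn (M : Gm c p r κ H w F G) (L : Loop c) (J : Inj c) :
    (∀ z, 0 < z → G z < F z) ∨ ∀ z, 0 < z → F z < G z := by
  suffices hs : (∀ z, 0 < z → z ≤ H → G z < F z) ∨ ∀ z, 0 < z → z ≤ H → F z < G z by
    rcases hs with h | h
    · left
      intro z hz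
      rcases le_total z H with h1 | h1
      · exact h z hz h1
      · rw [M.FH z h1, M.GH z h1]
        exact h H M.H0 le_rfl
    · right
      intro z hz
      rcases le_total z H with h1 | h1
      · exact h z hz h1
      · rw [M.FH z h1, M.GH z h1]
        exact h H M.H0 le_rfl
  have hne : ∀ z ∈ Ioc 0 H, F z - G z ≠ 0 := by
    intro z hz h0
    obtain ⟨t, ht, e⟩ := M.exF L hz.1.le hz.2
    obtain ⟨t', ht', e'⟩ := M.exG L hz.1.le hz.2
    have h1 := M.eF t ht (by rw [e]; exact hz.2)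
    have h2 := M.eG t' ht' (by rw [e']; exact hz.2)
    have hcc : c t = c t' := cuv_inj M.w0 (by rw [e, e']) (by rw [h1, h2, e, e']; linarith)
    have htp : p < t := by
      rcases eq_or_lt_of_le ht.1 with h | h
      · rw [← h, cu_self] at e
        linarith [hz.1]
      · exact h
    exact J t' t (by linarith [ht'.2]) (by linarith [ht'.1, ht.2, M.r1]) hcc.symm
  have hc : ContinuousOn (fun z => F z - G z) (Ioc 0 H) := by
    have := M.hF.cont
    have := M.hG.cont
    fun_prop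
  have hH : H ∈ Ioc 0 H := ⟨M.H0, le_rfl⟩
  rcases lt_or_gt_of_ne (hne H hH) with h | h
  · right
    intro z h1 h2
    have := sign_pre isPreconnected_Ioc hc hne (z := z) (w := H) ⟨h1, h2⟩ hH
    by_contra hcon
    have h3 := mul_nonpos_of_nonneg_of_nonpos (by linarith : 0 ≤ F z - G z) h.le
    linarith
  · left
    intro z h1 h2
    have := sign_pre isPreconnected_Ioc hc hne (z := z) (w := H) ⟨h1, h2⟩ hH
    have := (mul_pos_iff_of_pos_right h).1 this
    linarith

/-- points outside the two graphs near the tip are off the curve -/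
theorem Gm.off (M : Gm c p r κ H w F G) (L : Loop c) (J : Inj c) (hGF : ∀ z, 0 < z → G z < F z) :
    ∃ ε > 0, ∀ z : ℂ, |cu c p w z| < ε → |cv c p w z| < ε →
      (cv c p w z < G (cu c p w z) ∨ F (cu c p w z) < cv c p w z) → z ∉ range c := by
  obtain ⟨ρ1, hρ1, hnear⟩ := near_par L J M.r0
  have hw : 0 < ‖w‖ := norm_pos_iff.2 M.w0
  have hle : ∀ z, G z ≤ F z := fun z => by
    rcases lt_or_ge 0 z with h | h
    · exact (hGF z h).le
    · rw [M.F0 z h, M.G0 z h]
  refine ⟨min H (ρ1 * ‖w‖ / 2), lt_min M.H0 (by positivity), ?_⟩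
  rintro z h1 h2 h3 ⟨s, rfl⟩
  obtain ⟨h1a, h1b⟩ := lt_min_iff.1 h1
  obtain ⟨-, h2b⟩ := lt_min_iff.1 h2
  have hn : ‖c s - c p‖ < ρ1 := by
    have h4 : ‖w * (c s - c p)‖ ≤ |cu c p w (c s)| + |cv c p w (c s)| :=
      norm_le_abs_re_add_abs_im _
    rw [norm_mul] at h4
    have h5 : ‖w‖ * ‖c s - c p‖ < ‖w‖ * ρ1 := by linarith
    exact lt_of_mul_lt_mul_left h5 hw.le
  obtain ⟨n, e, he, hs⟩ := hnear s p hn
  have hcs : c s = c (p + e) := by rw [hs, L.per_int]
  rw [hcs] at h1a h3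
  obtain ⟨he1, he2⟩ := abs_lt.1 he
  have h6 : cu c p w (c (p + e)) ≤ H := (le_abs_self _).trans h1a.le
  rcases le_total 0 e with h | h
  · have h7 := M.eF (p + e) ⟨by linarith, by linarith⟩ h6
    have h8 := hle (cu c p w (c (p + e)))
    rcases h3 with h3 | h3 <;> linarith
  · have h7 := M.eG (p + e) ⟨by linarith, by linarith⟩ h6
    have h8 := hle (cu c p w (c (p + e)))
    rcases h3 with h3 | h3 <;> linarith

theorem cu_CC (c : ℝ → ℂ) (p : ℝ) (w : ℂ) (x y : ℝ) : cu c p w (CC c x y) =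
    cu c p w (c y) - (cv c p w (c y) - cv c p w (c x)) := by
  rw [CC_eq]
  unfold cu cv
  rw [show w * (c y + I * (c y - c x) - c p) = w * (c y - c p) +
    I * (w * (c y - c p) - w * (c x - c p)) by ring]
  simp
  ring

theorem cv_CC (c : ℝ → ℂ) (p : ℝ) (w : ℂ) (x y : ℝ) : cv c p w (CC c x y) =
    cv c p w (c y) + (cu c p w (c y) - cu c p w (c x)) := by
  rw [CC_eq]
  unfold cu cv
  rw [show w * (c y + I * (c y - c x) - c p) = w * (c y - c p) +
    I * (w * (c y - c p) - w * (c x - c p)) by ring]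
  simp

theorem cu_DD (c : ℝ → ℂ) (p : ℝ) (w : ℂ) (x y : ℝ) : cu c p w (DD c x y) =
    cu c p w (c x) - (cv c p w (c y) - cv c p w (c x)) := by
  rw [DD_eq]
  unfold cu cv
  rw [show w * (c x + I * (c y - c x) - c p) = w * (c x - c p) +
    I * (w * (c y - c p) - w * (c x - c p)) by ring]
  simp
  ring

theorem cv_DD (c : ℝ → ℂ) (p : ℝ) (w : ℂ) (x y : ℝ) : cv c p w (DD c x y) =
    cv c p w (c x) + (cu c p w (c y) - cu c p w (c x)) := by
  rw [DD_eq]
  unfold cu cv
  rw [show w * (c x + I * (c y - c x) - c p) = w * (c x - c p) +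
    I * (w * (c y - c p) - w * (c x - c p)) by ring]
  simp

end Pool.Agent.N919.Cusp
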