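import Pool.Agent.N919.Cusp.Chord
import Pool.Agent.H145R2.TRobust

/-! Curves that are locally monotone except at cusps. -/

set_option autoImplicit false
open Complex Set Topology Metric

namespace Pool.Agent.N919.Cusp

open Pool.Agent.H763R2 Pool.Agent.H763R2.An Pool.Agent.W675.Peg Pool.Agent.TH569.Peg
open Pool.Agent.H763R2.Dm (NoSq floor_const)
open Pool.Agent.Y535.PEG

variable {c : ℝ → ℂ}

theorem mon_of_cone {s : ℝ} (h : Cone c s) : Mon c s := by
  obtain ⟨ρ, hρ, w, H⟩ := h
  exact ⟨ρ, hρ, w, fun x y hx hy hxy => (abs_nonneg _).trans_lt (H x y hx hy hxy)⟩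

theorem mon_open {s : ℝ} (h : Mon c s) : ∃ δ > 0, ∀ t, |t - s| < δ → Mon c t := by
  obtain ⟨ρ, hρ, w, H⟩ := h
  refine ⟨ρ / 2, by positivity, fun t ht => ⟨ρ / 2, by positivity, w, fun x y hx hy hxy => ?_⟩⟩
  exact H x y (near_tr (by linarith) hx) (near_tr (by linarith) hy) hxy

theorem main_cusp (L : Loop c) (J : Inj c) (h : ∀ s, Mon c s ∨ Csp c s) {p0 : ℝ}
    (hp0 : ¬ Mon c p0) : ¬ NoSq (range c) := by
  intro nosq
  obtain ⟨x, g, ho, hper, hmon, hfree⟩ := exChargeC L J nosq
  -- the charge near a cusp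
  have hloc : ∀ p, ¬ Mon c p → ∃ ρ > 0, ρ < 1 / 2 ∧ (∀ t, |t - p| < ρ → t ≠ p → Cone c t) ∧
      ∀ s t, p - ρ < s → s < p → p < t → t < p + ρ → x t = x s := by
    intro p hp
    have hC : Csp c p := (h p).resolve_left hp
    obtain ⟨ρ, hρ, ρ1, hcone⟩ := hC.cone L J
    refine ⟨ρ, hρ, ρ1, hcone, fun s t h1 h2 h3 h4 => ?_⟩
    obtain ⟨a, b, g1, g2, g3, g4, hfr⟩ := hC.free L J (ρ := min (p - s) (t - p))
      (lt_min (by linarith) (by linarith))
    have m1 := min_le_left (p - s) (t - p)
    have m2 := min_le_right (p - s) (t - p)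
    have Ca : Cone c a := hcone a (by rw [abs_lt]; constructor <;> linarith) g2.ne
    have Cb : Cone c b := hcone b (by rw [abs_lt]; constructor <;> linarith) g3.ne'
    have Cs : Cone c s := hcone s (by rw [abs_lt]; constructor <;> linarith) h2.ne
    have Ct : Cone c t := hcone t (by rw [abs_lt]; constructor <;> linarith) h3.ne'
    have e1 := hfree a b ⟨by linarith, by linarith, Ca, Cb⟩ hfr
    have e2 := hmon s a ⟨by linarith, by linarith, Cs, Ca⟩ (fun r hr => mon_of_cone
      (hcone r (by rw [abs_lt]; constructor <;> linarith [hr.1, hr.2])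
        (by have := hr.2; intro h; linarith)))
    have e3 := hmon b t ⟨by linarith, by linarith, Cb, Ct⟩ (fun r hr => mon_of_cone
      (hcone r (by rw [abs_lt]; constructor <;> linarith [hr.1, hr.2])
        (by have := hr.1; intro h; linarith)))
    rw [e3, e1, e2]
  obtain ⟨ρ0, hρ0, ρ01, hcone0, hloc0⟩ := hloc p0 hp0
  obtain ⟨b0, hb0⟩ : ∃ b0, b0 = p0 + ρ0 / 2 := ⟨_, rfl⟩
  obtain ⟨e0, he0⟩ : ∃ e0, e0 = p0 - ρ0 / 2 := ⟨_, rfl⟩
  have Cb0 : Cone c b0 := hcone0 b0 (by rw [abs_lt]; constructor <;> linarith)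
    (by intro h; linarith)
  have Ce0 : Cone c e0 := hcone0 e0 (by rw [abs_lt]; constructor <;> linarith)
    (by intro h; linarith)
  set e := e0 + 1 with he
  have hbe : b0 ≤ e := by linarith
  -- the statement to propagate
  set Q : ℝ → Prop := fun t => ∀ s, b0 ≤ s → s ≤ t → Cone c s → x s = x b0 with hQ
  have step : ∀ t, b0 ≤ t → t ≤ e → (∀ t', b0 ≤ t' → t' < t → Q t') →
      ∃ δ > 0, ∀ t', t' < t + δ → Q t' := by
    intro t hbt hte ih
    by_cases hM : Mon c t
    · obtain ⟨δ0, hδ0, hopen⟩ := mon_open hM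
      obtain ⟨s0, k1, k2, k3, k4⟩ : ∃ s0, b0 ≤ s0 ∧ s0 ≤ t ∧ (Cone c s0 ∧ (x s0 = x b0)) ∧
          ∀ r ∈ Icc s0 t, Mon c r := by
        by_cases hbad : ∃ s ∈ Icc b0 t, ¬ Mon c s
        · obtain ⟨s', hs'⟩ := hbad
          have hcl : IsClosed {s | ¬ Mon c s} := by
            rw [← isOpen_compl_iff, Metric.isOpen_iff]
            intro s hs
            have hs1 : Mon c s := not_not.1 hs
            obtain ⟨δ, hδ, hd⟩ := mon_open hs1
            exact ⟨δ, hδ, fun t ht => not_not.2 (hd t (by simpa [Real.dist_eq] using ht))⟩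
          have hK : IsCompact (Icc b0 t ∩ {s | ¬ Mon c s}) := isCompact_Icc.inter_right hcl
          obtain ⟨q, hq, hmax⟩ := hK.exists_isGreatest ⟨s', hs'.1, hs'.2⟩
          have hq2 : ¬ Mon c q := hq.2
          have hqt : q < t := lt_of_le_of_ne hq.1.2 fun h => hq2 (h ▸ hM)
          have hbq : b0 < q := lt_of_le_of_ne hq.1.1 fun h => hq2 (h ▸ mon_of_cone Cb0)
          obtain ⟨ρq, hρq, -, hcq, -⟩ := hloc q hq2
          have hm : 0 < min ρq (t - q) := lt_min hρq (by linarith)
          have m1 := min_le_left ρq (t - q)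
          have m2 := min_le_right ρq (t - q)
          have Cs0 : Cone c (q + min ρq (t - q) / 2) := hcq _ (by
            rw [add_sub_cancel_left, abs_of_pos (by positivity)]; linarith) (by
              intro h; linarith)
          refine ⟨q + min ρq (t - q) / 2, by linarith, by linarith, ⟨Cs0,
            ih _ (by linarith) (by linarith : q + min ρq (t - q) / 2 < t) _ (by linarith) le_rfl Cs0⟩,
            fun r hr => ?_⟩
          by_contra hr2
          have := hmax (show r ∈ Icc b0 t ∩ {s | ¬ Mon c s} from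
            ⟨⟨by linarith [hr.1], hr.2⟩, hr2⟩)
          linarith [hr.1]
        · push Not at hbad
          exact ⟨b0, le_rfl, hbt, ⟨Cb0, rfl⟩, hbad⟩
      refine ⟨min δ0 (ρ0 / 2), lt_min hδ0 (by positivity), fun t' ht' s hs1 hs2 Cs => ?_⟩
      have m1 := min_le_left δ0 (ρ0 / 2)
      have m2 := min_le_right δ0 (ρ0 / 2)
      rcases lt_or_ge s t with hst | hst
      · exact ih s hs1 hst s hs1 le_rfl Cs
      · rcases eq_or_lt_of_le (k2.trans hst) with h1 | h1
        · rw [← h1]; exact k3.2
        · rw [← k3.2]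
          refine hmon s0 s ⟨h1, by linarith, k3.1, Cs⟩ (fun r hr => ?_)
          rcases le_total r t with h2 | h2
          · exact k4 r ⟨hr.1, h2⟩
          · exact hopen r (by rw [abs_of_nonneg (by linarith)]; linarith [hr.2])
    · obtain ⟨ρt, hρt, -, hct, hlt⟩ := hloc t hM
      have hbt' : b0 < t := lt_of_le_of_ne hbt fun h => hM (h ▸ mon_of_cone Cb0)
      obtain ⟨s0, k1, k2, k3⟩ : ∃ s0, b0 ≤ s0 ∧ s0 < t ∧ t - ρt < s0 :=
        ⟨max b0 (t - ρt / 2), le_max_left _ _, max_lt hbt' (by linarith), by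
          have := le_max_right b0 (t - ρt / 2)
          linarith⟩
      have Cs0 : Cone c s0 := hct s0 (by rw [abs_lt]; constructor <;> linarith) k2.ne
      have e0 := ih s0 k1 k2 s0 k1 le_rfl Cs0
      refine ⟨ρt, hρt, fun t' ht' s hs1 hs2 Cs => ?_⟩
      rcases lt_trichotomy s t with hst | hst | hst
      · exact ih s hs1 hst s hs1 le_rfl Cs
      · exact absurd (mon_of_cone (hst ▸ Cs)) hM
      · rw [← e0]
        exact hlt s0 s k3 k2 hst (by linarith)
  have hQe : Q e := by
    set S := {t | b0 ≤ t ∧ t ≤ e ∧ Q t} with hS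
    have hQb : Q b0 := fun s h1 h2 _ => by rw [le_antisymm h2 h1]
    have hbS : b0 ∈ S := ⟨le_rfl, hbe, hQb⟩
    have hbdd : BddAbove S := ⟨e, fun t ht => ht.2.1⟩
    have hT1 : b0 ≤ sSup S := le_csSup hbdd hbS
    have hT2 : sSup S ≤ e := csSup_le ⟨b0, hbS⟩ fun t ht => ht.2.1
    obtain ⟨δ, hδ, hQδ⟩ := step (sSup S) hT1 hT2 (fun t' _ ht' => by
      obtain ⟨t'', ht1, ht2⟩ := exists_lt_of_lt_csSup ⟨b0, hbS⟩ ht'
      exact fun s h1 h2 Cs => ht1.2.2 s h1 (by linarith) Cs)
    rcases lt_or_ge (sSup S) e with hlt | hge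
    · exfalso
      have hm : sSup S < min e (sSup S + δ / 2) := lt_min hlt (by linarith)
      have hmem : min e (sSup S + δ / 2) ∈ S := ⟨by linarith, min_le_left _ _,
        hQδ _ ((min_le_right _ _).trans_lt (by linarith))⟩
      have := le_csSup hbdd hmem
      linarith
    · exact hQδ e (by linarith)
  have h1 := hQe e hbe le_rfl (Ce0.per L)
  have h2 := hper e0 Ce0
  have h3 := hloc0 e0 b0 (by linarith) (by linarith) (by linarith) (by linarith)
  have h4 : g = 0 := by
    rw [← he] at h2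
    linarith
  rw [h4] at ho
  exact absurd ho (by decide)

/-- curves that are locally monotone except at cusps -/
theorem main (hc : Continuous c) (hp : ∀ t, c (t + 1) = c t)
    (J : Inj c) (h : ∀ s, Mon c s ∨ Csp c s) :
    ∃ z w : ℂ, w ≠ 0 ∧ z ∈ range c ∧ z + w ∈ range c ∧ z + w + I * w ∈ range c ∧
      z + I * w ∈ range c := by
  by_cases hM : ∀ s, Mon c s
  · have L : Loop c := ⟨hc, hp⟩
    have hJ : H145R2.TSq.Jor c := by
      refine ⟨hc, hp, fun s t hst => ?_⟩
      obtain ⟨n, hn⟩ := inj_fib L J t s hst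
      exact ⟨n, by linarith⟩
    obtain ⟨ε, hε, H⟩ := H145R2.TSq.main_robust hJ (fun τ => by
      obtain ⟨ρ, hρ, w, hw⟩ := hM τ
      refine ⟨fun z => (w * z).re, univ, Filter.univ_mem, 0, ?_, ?_, ?_, ρ, hρ, ?_⟩
      · intro z _
        have : DifferentiableAt ℂ (fun z : ℂ => w * z) z := by fun_prop
        exact (reCLM.differentiableAt).comp z (this.restrictScalars ℝ)
      · have e : ∀ z, fderiv ℝ (fun z : ℂ => (w * z).re) z =
            reCLM.comp ((ContinuousLinearMap.mul ℝ ℂ) w) := by
          intro z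
          have : (fun z : ℂ => (w * z).re) = fun z => (reCLM.comp ((ContinuousLinearMap.mul ℝ ℂ) w)) z := by
            funext z; simp
          rw [this]
          exact ContinuousLinearMap.fderiv _
        intro x _ y _
        rw [e, e]
        simp
      · have e : fderiv ℝ (fun z : ℂ => (w * z).re) (c τ) =
            reCLM.comp ((ContinuousLinearMap.mul ℝ ℂ) w) := by
          have : (fun z : ℂ => (w * z).re) = fun z => (reCLM.comp ((ContinuousLinearMap.mul ℝ ℂ) w)) z := by
            funext z; simp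
          rw [this]
          exact ContinuousLinearMap.fderiv _
        rw [e]
        intro h0
        have h1 := hw τ (τ + ρ / 2) (by simpa using hρ) (by
          rw [add_sub_cancel_left, abs_of_pos (by positivity)]; linarith) (by linarith)
        have h2 := congrArg (fun f => f (c (τ + ρ / 2) - c τ)) h0
        simp only [ContinuousLinearMap.comp_apply, ContinuousLinearMap.mul_apply', reCLM_apply,
          ContinuousLinearMap.zero_apply] at h2
        linarith
      · intro x hx y hy hxy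
        rcases eq_or_lt_of_le hxy with h | h
        · rw [h]
        · have h1 := hw x y (by rw [abs_lt]; constructor <;> linarith [hx.1, hx.2])
            (by rw [abs_lt]; constructor <;> linarith [hy.1, hy.2]) h
          rw [mul_sub, sub_re] at h1
          simp only
          linarith)
    exact H c hJ (fun t => by rw [sub_self, norm_zero]; exact hε.le)
  · push Not at hM
    obtain ⟨p0, hp0⟩ := hM
    have := main_cusp ⟨hc, hp⟩ J h hp0
    unfold NoSq at this
    exact not_not.1 this

end Pool.Agent.N919.Cusp
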