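import Pool.Agent.Y450.Lens.Area

/-! Squares near a cusp between two graphs of Lipschitz constant less than `1`: the last vertex
is below the lower graph for arbitrarily small squares. -/

set_option autoImplicit false
open MeasureTheory intervalIntegral Set

namespace Pool.Agent.N919.Cusp

open Pool.Agent.Y450.Stab Pool.Agent.Y450.Lens

section lay

variable {C : ℝ} {X H : ℕ → ℝ}

/-- the layer function bounded below by the first abscissa -/
theorem max_lip {C m : ℝ} {f : ℝ → ℝ} (hf : Lip C f) : Lip C (fun t => max m (f t)) := by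
  intro s t
  have h := hf s t
  have := abs_max_sub_max_le_max m (f s) m (f t)
  rw [sub_self, abs_zero] at this
  exact this.trans (max_le ((abs_nonneg _).trans h) h)

/-- the area under a path that starts at its smallest abscissa -/
theorem layer0 (hC : 0 ≤ C) {n : ℕ} (h0 : ∀ k ≤ n, 0 ≤ H k)
    (hc : ∀ j k, j ≤ k → k ≤ n → X j - C * |H k - H j| ≤ X k) (hm : ∀ k ≤ n, X 0 ≤ X k) :
    -(C / 2) * H n ^ 2 - C / 2 * ∑ k ∈ Finset.range n, (H (k + 1) - H k) ^ 2 ≤
      Sm X H n := by
  set Q : ℕ → ℝ → ℝ := fun k t => max (X 0) (Lay C X H k t) with hQ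
  have Ql : ∀ k, Lip C (Q k) := fun k => max_lip (Lay.lip hC k)
  have Qm : ∀ k t, Q k t ≤ Q (k + 1) t := fun k t => max_le_max le_rfl (Lay.mono k t)
  have Qs : ∀ k t, X k - C * |t - H k| ≤ Q k t := fun k t =>
    (Lay.self k t).trans (le_max_right _ _)
  have Qle : ∀ k m, k ≤ m → m ≤ n → Q k (H m) ≤ X m := fun k m hk hm' =>
    max_le (hm m hm') (Lay.le hc k m hk hm')
  have key : ∀ k ≤ n, X k * H k - Prim (Q k) (H k) -
      C / 2 * ∑ i ∈ Finset.range k, (H (i + 1) - H i) ^ 2 ≤ Sm X H k := by
    intro k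
    induction k with
    | zero =>
      intro _
      have hH := h0 0 (by omega)
      have h := le_Prim (Ql 0).cont (C := X 0) hH fun t _ => le_max_left _ _
      have e0 : Prim (Q 0) 0 = 0 := by simp [Prim]
      rw [e0] at h
      simp only [Sm, Finset.range_zero, Finset.sum_empty, mul_zero, sub_zero] at h ⊢
      linarith
    | succ k ih =>
      intro hk
      have ih := ih (by omega)
      have hS : Sm X H (k + 1) = Sm X H k + (H k + H (k + 1)) / 2 * (X (k + 1) - X k) := by
        unfold Sm; rw [Finset.sum_range_succ]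
      rw [hS, Finset.sum_range_succ]
      have c0 := (Ql k).cont
      have c1 := (Ql (k + 1)).cont
      have e0 : ∀ j, Prim (Q j) 0 = 0 := fun j => by simp [Prim]
      have hk0 := h0 k (by omega)
      have hk1 := h0 (k + 1) hk
      suffices hs : (X k + X (k + 1)) / 2 * (H (k + 1) - H k) - C / 2 * (H (k + 1) - H k) ^ 2 ≤
          Prim (Q (k + 1)) (H (k + 1)) - Prim (Q k) (H k) by
        linarith
      rcases le_total (H k) (H (k + 1)) with hu | hd
      · have m1 := Prim_mono c0 c1 hk0 fun t _ => Qm k t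
        rw [e0, e0] at m1
        have m2 := le_Prim c1 (C := (X k + X (k + 1)) / 2 - C / 2 * (H (k + 1) - H k)) hu
          fun t ht => by
            have s1 := (Qs k t).trans (Qm k t)
            have s2 := Qs (k + 1) t
            rw [abs_of_nonneg (by linarith [ht.1] : 0 ≤ t - H k)] at s1
            rw [abs_of_nonpos (by linarith [ht.2] : t - H (k + 1) ≤ 0)] at s2
            linarith
        linarith
      · have m1 := Prim_mono c0 c1 hk1 fun t _ => Qm k t
        rw [e0, e0] at m1
        have m2 := Prim_le c0 (C := (X k + X (k + 1)) / 2 + C / 2 * (H k - H (k + 1))) hd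
          fun t ht => by
            have s1 := Qle k k le_rfl (by omega)
            have s2 := Qle k (k + 1) (by omega) hk
            have l1 := (abs_le.1 (Ql k t (H k))).2
            have l2 := (abs_le.1 (Ql k t (H (k + 1)))).2
            rw [abs_of_nonpos (by linarith [ht.2] : t - H k ≤ 0)] at l1
            rw [abs_of_nonneg (by linarith [ht.1] : 0 ≤ t - H (k + 1))] at l2
            linarith
        linarith
  have h := key n le_rfl
  have hn := h0 n le_rfl
  have m := (abs_le.1 ((Ql n).right hn)).2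
  have hm := mul_le_mul_of_nonneg_left (Qle n n le_rfl le_rfl) hn
  have e0 : Prim (Q n) 0 = 0 := by simp [Prim]
  rw [e0] at m
  simp only [sub_zero] at m
  linarith

end lay

variable {T B : ℝ → ℝ} {L : ℝ}

theorem path_area0 (hT : Lip L T) (hB : Lip L B) (L0 : 0 ≤ L) (L1 : L < 1) {xs xe : ℝ}
    (hx : xs ≤ xe)
    {dd ll : ℝ → ℝ} (hS : ∀ x ∈ Icc xs xe, ESq T B x (dd x) (ll x))
    (hH : ∀ x ∈ Icc xs xe, 0 ≤ YY T dd ll x - B (XX dd ll x))
    (hmin : ∀ x ∈ Icc xs xe, XX dd ll xs ≤ XX dd ll x) :
    - (YY T dd ll xe - B (XX dd ll xe)) ^ 2 / (2 * (1 - L))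
    ≤ Pot T B xe (dd xe) (ll xe) - Pot T B xs (dd xs) (ll xs) := by
  set K : ℝ := 1 + 4 / (1 - L) with hK
  have q0 : 0 < 1 - L := by linarith
  have K1 : 1 ≤ K := by rw [hK]; have := div_nonneg (by norm_num : (0:ℝ) ≤ 4) q0.le; linarith
  set C : ℝ := 1 / (1 - L) with hC
  have C0 : 0 ≤ C := by rw [hC]; positivity
  -- error
  have main : ∀ n : ℕ, 0 < n →
      - (C / 2 * (YY T dd ll xe - B (XX dd ll xe)) ^ 2)
      - (C * (2 * K) ^ 2 / 2 + K ^ 2) * (xe - xs) ^ 2 * (1 / n)
      ≤ Pot T B xe (dd xe) (ll xe) - Pot T B xs (dd xs) (ll xs) := by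
    intro n hn
    have hn' : (0:ℝ) < n := by exact_mod_cast hn
    set r : ℝ := (xe - xs) / n with hr
    have r0 : 0 ≤ r := div_nonneg (by linarith) hn'.le
    set g : ℕ → ℝ := fun k => xs + k * r with hg
    have gn : g n = xe := by
      simp only [hg, hr]
      field_simp
      ring
    have g0 : g 0 = xs := by simp [hg]
    have gs : ∀ k, g (k + 1) = g k + r := fun k => by simp only [hg]; push_cast; ring
    have gm : ∀ k ≤ n, g k ∈ Icc xs xe := by
      intro k hk
      have hk' : (k:ℝ) ≤ n := by exact_mod_cast hk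
      have hk0 : (0:ℝ) ≤ k := Nat.cast_nonneg k
      constructor
      · have := mul_nonneg hk0 r0
        simp only [hg]; linarith
      · have := mul_le_mul_of_nonneg_right hk' r0
        rw [← gn]; simp only [hg]; linarith
    set X : ℕ → ℝ := fun k => XX dd ll (g k) with hX
    set H : ℕ → ℝ := fun k => YY T dd ll (g k) - B (XX dd ll (g k)) with hHd
    have H0 : ∀ k ≤ n, 0 ≤ H k := fun k hk => hH (g k) (gm k hk)
    have hcone : ∀ j k, j ≤ k → k ≤ n → X j - C * |H k - H j| ≤ X k := by
      intro j k hjk hk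
      by_cases hXX : X j ≤ X k
      · have := mul_nonneg C0 (abs_nonneg (H k - H j))
        linarith
      push Not at hXX
      have e : g k = g j + (k - j) * r := by simp only [hg]; ring
      have hjk' : (0:ℝ) ≤ k - j := by
        have : (j:ℝ) ≤ k := by exact_mod_cast hjk
        linarith
      have rp : 0 < ((k:ℝ) - j) * r := by
        refine lt_of_le_of_ne (mul_nonneg hjk' r0) fun h => ?_
        rw [← h, add_zero] at e
        simp only [hX, e] at hXX
        exact lt_irrefl _ hXX
      have Sj := hS (g j) (gm j (hjk.trans hk))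
      have Sk := hS (g k) (gm k hk)
      rw [e] at Sk
      have hc := Sj.cone hT hB L1 Sk rp
      rw [← e] at hc
      have hc' : X j - X k ≤ |YY T dd ll (g k) - YY T dd ll (g j)| := hc
      have hb := hB (X k) (X j)
      rw [abs_of_neg (by linarith : X k - X j < 0)] at hb
      have hh : |YY T dd ll (g k) - YY T dd ll (g j)| ≤ |H k - H j| + |B (X k) - B (X j)| := by
        have h1 : YY T dd ll (g k) - YY T dd ll (g j) =
            (H k - H j) + (B (X k) - B (X j)) := by
          simp only [hHd, hX]; ring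
        rw [h1]
        exact abs_add_le _ _
      have : (1 - L) * (X j - X k) ≤ |H k - H j| := by linarith
      have := mul_le_mul_of_nonneg_left this C0
      rw [← mul_assoc, show C * (1 - L) = 1 by rw [hC]; field_simp, one_mul] at this
      linarith
    have hlay := layer0 (X := X) (H := H) (C := C) C0 H0 hcone (fun k hk => by
      simp only [hX, g0]
      exact hmin _ (gm k hk))
    -- bounds of the steps
    have hKr : r ≤ K * r := by
      have := mul_le_mul_of_nonneg_right K1 r0
      linarith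
    have hst : ∀ k < n, |dd (g (k + 1)) - dd (g k)| + |ll (g (k + 1)) - ll (g k)| ≤ K * r - r := by
      intro k hk
      have S1 := hS (g k) (gm k hk.le)
      have S2 := hS (g (k + 1)) (gm (k + 1) hk)
      rw [gs k] at S2
      have := S1.steps hT hB L0 L1 S2 r0
      rw [← gs k] at this
      have e : K - 1 = 4 / (1 - L) := by rw [hK]; ring
      rw [show K * r - r = (K - 1) * r by ring, e, div_mul_eq_mul_div, le_div_iff₀ q0]
      linarith
    have hstep : ∀ k < n, (H k + H (k + 1)) / 2 * (X (k + 1) - X k) -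
        K ^ 2 * r ^ 2 ≤ Pot T B (g (k + 1)) (dd (g (k + 1))) (ll (g (k + 1))) -
          Pot T B (g k) (dd (g k)) (ll (g k)) := by
      intro k hk
      have S1 := hS (g k) (gm k hk.le)
      have S2 := hS (g (k + 1)) (gm (k + 1) hk)
      rw [gs k] at S2
      have hcmp := step_cmp hT hB L1 hB L1 S1 S2
      rw [← gs k] at hcmp
      have hs := hst k hk
      have b1 := abs_le.1 (le_refl |dd (g (k + 1)) - dd (g k)|)
      have b2 := abs_le.1 (le_refl |ll (g (k + 1)) - ll (g k)|)
      have n1 := abs_nonneg (dd (g (k + 1)) - dd (g k))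
      have n2 := abs_nonneg (ll (g (k + 1)) - ll (g k))
      have sq1 : ∀ z : ℝ, |z| ≤ K * r → z ^ 2 ≤ K ^ 2 * r ^ 2 := by
        intro z hz
        rw [← mul_pow, ← sq_abs z]
        exact pow_le_pow_left₀ (abs_nonneg _) hz 2
      have f1 : r ^ 2 ≤ K ^ 2 * r ^ 2 := sq1 r (by rw [abs_of_nonneg r0]; exact hKr)
      have f2 := sq1 (r + (dd (g (k + 1)) - dd (g k))) (by
        rw [abs_le]; constructor <;> linarith [b1.1, b1.2])
      have f3 := sq1 (r + (ll (g (k + 1)) - ll (g k))) (by
        rw [abs_le]; constructor <;> linarith [b2.1, b2.2])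
      have f4 := sq1 (r + (dd (g (k + 1)) - dd (g k)) + (ll (g (k + 1)) - ll (g k))) (by
        rw [abs_le]; constructor <;> linarith [b1.1, b1.2, b2.1, b2.2])
      set P' := Pot T B (g (k + 1)) (dd (g (k + 1))) (ll (g (k + 1))) with hP'
      set P := Pot T B (g k) (dd (g k)) (ll (g k)) with hP
      have hcmp' : |(P' - P) - (((YY T dd ll (g k) - B (XX dd ll (g k))) +
          (YY T dd ll (g (k + 1)) - B (XX dd ll (g (k + 1))))) / 2 * (X (k + 1) - X k) +
          (Prim B (X (k + 1)) - Prim B (X k)) - (Prim B (X (k + 1)) - Prim B (X k)))| ≤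
          (r ^ 2 + (r + (dd (g (k + 1)) - dd (g k))) ^ 2 +
          (r + (ll (g (k + 1)) - ll (g k))) ^ 2 +
            (r + (dd (g (k + 1)) - dd (g k)) + (ll (g (k + 1)) - ll (g k))) ^ 2) / 4 := hcmp
      have hs3 := (abs_le.1 hcmp').1
      have e1 : (YY T dd ll (g k) - B (XX dd ll (g k))) = H k := rfl
      have e2 : (YY T dd ll (g (k + 1)) - B (XX dd ll (g (k + 1)))) = H (k + 1) := rfl
      rw [e1, e2] at hs3
      linarith
    have hH2 : ∀ k < n, (H (k + 1) - H k) ^ 2 ≤ (2 * K) ^ 2 * r ^ 2 := by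
      intro k hk
      have hs := hst k hk
      have t1 := hT (g (k + 1)) (g k)
      have t2 := hB (XX dd ll (g (k + 1))) (XX dd ll (g k))
      rw [show g (k + 1) - g k = r by rw [gs k]; ring, abs_of_nonneg r0] at t1
      have eX : |XX dd ll (g (k + 1)) - XX dd ll (g k)| ≤ K * r := by
        have : XX dd ll (g (k + 1)) - XX dd ll (g k) =
            r + (dd (g (k + 1)) - dd (g k)) + (ll (g (k + 1)) - ll (g k)) := by
          unfold XX
          rw [show g (k + 1) = g k + r from gs k]; ring
        rw [this]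
        have b1 := abs_le.1 (le_refl |dd (g (k + 1)) - dd (g k)|)
        have b2 := abs_le.1 (le_refl |ll (g (k + 1)) - ll (g k)|)
        have n1 := abs_nonneg (dd (g (k + 1)) - dd (g k))
        have n2 := abs_nonneg (ll (g (k + 1)) - ll (g k))
        rw [abs_le]; constructor <;> linarith [b1.1, b1.2, b2.1, b2.2]
      have hz : |H (k + 1) - H k| ≤ 2 * K * r := by
        have b1 := abs_le.1 (le_refl |dd (g (k + 1)) - dd (g k)|)
        have b2 := abs_le.1 (le_refl |ll (g (k + 1)) - ll (g k)|)
        have t1 := abs_le.1 t1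
        have t2 := abs_le.1 (t2.trans (mul_le_mul_of_nonneg_left eX L0))
        have u1 : L * r ≤ r := by
          have := mul_le_mul_of_nonneg_right L1.le r0
          linarith
        have u2 : L * (K * r) ≤ K * r := by
          have := mul_le_mul_of_nonneg_right L1.le (mul_nonneg (by linarith : (0:ℝ) ≤ K) r0)
          linarith
        simp only [hHd, YY]
        rw [abs_le]
        constructor <;> linarith [b1.1, b1.2, b2.1, b2.2, t1.1, t1.2, t2.1, t2.2]
      rw [← mul_pow, ← sq_abs (H (k + 1) - H k)]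
      exact pow_le_pow_left₀ (abs_nonneg _) hz 2
    have hsumH : ∑ k ∈ Finset.range n, (H (k + 1) - H k) ^ 2 ≤ n * ((2 * K) ^ 2 * r ^ 2) := by
      refine (Finset.sum_le_sum fun k hk => hH2 k (Finset.mem_range.1 hk)).trans ?_
      rw [Finset.sum_const, Finset.card_range, nsmul_eq_mul]
    have hsumP := Finset.sum_le_sum fun k hk => hstep k (Finset.mem_range.1 hk)
    rw [Finset.sum_sub_distrib,
      Finset.sum_range_sub (fun k => Pot T B (g k) (dd (g k)) (ll (g k))), Finset.sum_const,
      Finset.card_range, nsmul_eq_mul, gn, g0] at hsumP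
    have eHn : H n ^ 2 = (YY T dd ll xe - B (XX dd ll xe)) ^ 2 := by
      simp only [hHd, gn]
    rw [eHn] at hlay
    have er : (n:ℝ) * r ^ 2 = (xe - xs) ^ 2 * (1 / n) := by
      rw [hr]; field_simp
    have hl2 : C / 2 * ∑ k ∈ Finset.range n, (H (k + 1) - H k) ^ 2 ≤
        C / 2 * (n * ((2 * K) ^ 2 * r ^ 2)) :=
      mul_le_mul_of_nonneg_left hsumH (by positivity)
    have e3 : C / 2 * (n * ((2 * K) ^ 2 * r ^ 2)) + n * (K ^ 2 * r ^ 2) =
        (C * (2 * K) ^ 2 / 2 + K ^ 2) * (xe - xs) ^ 2 * (1 / n) := by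
      rw [mul_assoc (C * (2 * K) ^ 2 / 2 + K ^ 2), ← er]; ring
    unfold Sm at hlay
    linarith
  -- the limit
  have hlim : Filter.Tendsto (fun n : ℕ =>
      - (C / 2 * (YY T dd ll xe - B (XX dd ll xe)) ^ 2)
      - (C * (2 * K) ^ 2 / 2 + K ^ 2) * (xe - xs) ^ 2 * (1 / (n:ℝ))) Filter.atTop
      (nhds (- (C / 2 * (YY T dd ll xe - B (XX dd ll xe)) ^ 2)
      - (C * (2 * K) ^ 2 / 2 + K ^ 2) * (xe - xs) ^ 2 * 0)) :=
    tendsto_const_nhds.sub (tendsto_one_div_atTop_nhds_zero_nat.const_mul _)
  have := le_of_tendsto hlim (Filter.eventually_atTop.2 ⟨1, fun n hn => main n hn⟩)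
  rw [mul_zero, sub_zero] at this
  have e : - (YY T dd ll xe - B (XX dd ll xe)) ^ 2 / (2 * (1 - L)) =
      - (C / 2 * (YY T dd ll xe - B (XX dd ll xe)) ^ 2) := by
    rw [hC]; field_simp
  rw [e]
  exact this

/-- near the tip of a cusp between two graphs there are squares whose last vertex is strictly
outside -/
theorem sign_cusp (hT : Lip L T) (hB : Lip L B) (L0 : 0 ≤ L) (L1 : L < 1)
    (T0 : ∀ x, 0 ≤ x → T x = 0) (B0 : ∀ x, 0 ≤ x → B x = 0) (hTB : ∀ x < 0, B x < T x) {x0 : ℝ}
    (hx0 : x0 < 0) : ∃ x d l, x0 ≤ x ∧ x < 0 ∧ ESq T B x d l ∧ T x + d - l < B (x + d + l) := by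
  by_contra hcon
  push Not at hcon
  have hle : ∀ x, B x ≤ T x := fun x => by
    rcases lt_or_ge x 0 with h | h
    · exact (hTB x h).le
    · rw [T0 x h, B0 x h]
  have hex : ∀ x, ∃ p : ℝ × ℝ, ESq T B x p.1 p.2 := fun x => by
    obtain ⟨d, l, h⟩ := ESq.ex hT hB L0 L1 (hle x)
    exact ⟨(d, l), h⟩
  choose p hp using hex
  set dd : ℝ → ℝ := fun x => (p x).1 with hdd
  set ll : ℝ → ℝ := fun x => (p x).2 with hll
  have hS : ∀ x, ESq T B x (dd x) (ll x) := hp
  have q0 : 0 < 1 - L := by linarith
  -- continuity of the abscissa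
  have hstep : ∀ x y, x ≤ y → |dd y - dd x| + |ll y - ll x| ≤ 4 / (1 - L) * (y - x) := by
    intro x y hxy
    have S1 := hS x
    have S2 := hS y
    have e : y = x + (y - x) := by ring
    rw [e] at S2
    have := S1.steps hT hB L0 L1 S2 (by linarith)
    rw [← e] at this
    rw [div_mul_eq_mul_div, le_div_iff₀ q0]
    linarith
  have hXX : Lip (1 + 4 / (1 - L)) (XX dd ll) := by
    intro x y
    have key : ∀ x y, x ≤ y → |XX dd ll x - XX dd ll y| ≤ (1 + 4 / (1 - L)) * |x - y| := by
      intro x y hxy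
      have h := hstep x y hxy
      have b1 := abs_le.1 (le_refl |dd y - dd x|)
      have b2 := abs_le.1 (le_refl |ll y - ll x|)
      have n1 := abs_nonneg (dd y - dd x)
      have n2 := abs_nonneg (ll y - ll x)
      rw [abs_of_nonpos (by linarith : x - y ≤ 0)]
      unfold XX
      rw [abs_le]
      constructor <;> nlinarith [b1.1, b1.2, b2.1, b2.2]
    rcases le_total x y with h | h
    · exact key x y h
    · rw [abs_sub_comm, abs_sub_comm x y]; exact key y x h
  -- data at the tip
  have l00 : ll 0 = 0 := by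
    have h := (hS 0).l_le hT hB L0
    rw [T0 0 le_rfl, B0 0 le_rfl, sub_self] at h
    have h2 : 0 < 1 - L ^ 2 := by nlinarith
    have h3 := (hS 0).l0
    nlinarith
  have d00 : dd 0 = 0 := by
    have h := (hS 0).d_le hT
    rw [l00, mul_zero] at h
    exact abs_nonpos_iff.1 h
  have X00 : XX dd ll 0 = 0 := by unfold XX; rw [l00, d00]; ring
  have Y00 : YY T dd ll 0 = 0 := by unfold YY; rw [l00, d00, T0 0 le_rfl]; ring
  -- the abscissa of the last vertex is negative
  have hneg : ∀ x, x0 ≤ x → x < 0 → XX dd ll x < 0 := by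
    intro x h1 h2
    by_contra hX
    push Not at hX
    have hy := hcon x (dd x) (ll x) h1 h2 (hS x)
    have e : B (x + dd x + ll x) = 0 := B0 _ hX
    rw [e] at hy
    have S := hS x
    have l0 := S.l0
    have hgap : 0 < ll x := by
      have := gap_x hT hB L0 L1 S
      have := hTB x h2
      linarith
    have h3 := S.h3
    have hd := abs_le.1 (S.d_le hT)
    -- T (x + l) ≥ l > 0
    have hx1 : x + ll x < 0 := by
      by_contra hc
      push Not at hc
      rw [T0 _ hc] at h3
      linarith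
    have h4 := (abs_le.1 (hT (x + ll x) 0)).2
    rw [T0 0 le_rfl, sub_zero, sub_zero, h3, abs_of_neg hx1] at h4
    unfold XX at hX
    nlinarith
  obtain ⟨xs, hxs, hmin⟩ := isCompact_Icc.exists_isMinOn (nonempty_Icc.2 hx0.le)
    hXX.cont.continuousOn
  have hxs0 : xs < 0 := by
    rcases lt_or_eq_of_le hxs.2 with h | h
    · exact h
    · exfalso
      have h1 := hmin (show x0 ∈ Icc x0 0 from ⟨le_rfl, hx0.le⟩)
      have h2 := hneg x0 le_rfl hx0
      simp only [Set.mem_ofPred_eq, h, X00] at h1
      linarith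
  have hA := path_area0 hT hB L0 L1 hxs.2 (dd := dd) (ll := ll) (fun x _ => hS x) (fun x hx => by
      rcases lt_or_eq_of_le hx.2 with h | h
      · have := hcon x (dd x) (ll x) (hxs.1.trans hx.1) h (hS x)
        unfold YY XX
        linarith
      · rw [h, Y00, X00, B0 0 le_rfl, sub_zero])
    (fun x hx => hmin (show x ∈ Icc x0 0 from ⟨hxs.1.trans hx.1, hx.2⟩))
  rw [Y00, X00, B0 0 le_rfl, sub_zero] at hA
  have hP0 : Pot T B 0 (dd 0) (ll 0) = 0 := by
    unfold Pot; rw [l00, d00]; simp
  rw [hP0] at hA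
  have hlow := (hS xs).pot_lower hT hB
  have hh := hcon xs (dd xs) (ll xs) hxs.1 hxs0 (hS xs)
  have hl : 0 < ll xs := by
    have := gap_x hT hB L0 L1 (hS xs)
    have := hTB xs hxs0
    linarith
  have h1 : 0 < (1 - L) * ll xs ^ 2 / 2 := by positivity
  have h2 : 0 ≤ ll xs * (T xs + dd xs - ll xs - B (xs + dd xs + ll xs)) / 2 :=
    div_nonneg (mul_nonneg hl.le (by linarith)) (by norm_num)
  norm_num at hA
  linarith

end Pool.Agent.N919.Cusp
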